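import Pool.Agent.H564R2.EF.Defs
import Pool.Agent.H564R2.QF.Approx
import Pool.Agent.Helper600R2.Lift

/-!
Stubs (statements only, with `sorry`): every theorem goes to its own file, see `h564_tasks`.
-/

namespace Pool.Agent.H564R2.EF

open Finset
open Pool.Agent.H564R2.QF (LowDeg chi)

/-- T1 -/
theorem hits {E B : Type} [Fintype E] [DecidableEq E] [Fintype B] [DecidableEq B]
    (U : Finset (E × B)) (D t : ℕ) (hU : U.card ≤ D) :
    ((univ.filter (fun σ : E → B =>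
      t ≤ (univ.filter (fun e => (e, σ e) ∈ U)).card)).card : ℝ) * (Fintype.card B : ℝ) ^ t ≤
      D.choose t * (Fintype.card B : ℝ) ^ (Fintype.card E) := by
  sorry

/-- T2 (may use T1): a Boolean function which is close to a function of low degree has low degree
after most restrictions. -/
theorem shrink_one {E B : Type} [Fintype E] [DecidableEq E] [Fintype B] [DecidableEq B]
    (hB : 1 ≤ Fintype.card B) {D d : ℕ} (f : (E × B → Bool) → Bool) (P : (E × B → Bool) → ℝ)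
    (hP : P ∈ LowDeg (E × B) D) (ε : ℝ) (hε0 : 0 ≤ ε) (hε1 : ε ≤ 1)
    (hf : ∀ x, |P x - ind (f x)| ≤ ε)
    (bad : Finset ((E → B) × (E × B → Bool)))
    (hbad : ∀ p ∈ bad, (fun z => ind (f (rst p.1 p.2 z))) ∉ LowDeg E d) :
    (bad.card : ℝ) ≤ 4 ^ (Fintype.card E) *
      (8 * (D.choose (d + 1) : ℝ) / (Fintype.card B : ℝ) ^ (d + 1) + 2 * ε ^ 2) *
      ((Fintype.card B : ℝ) ^ (Fintype.card E) * 2 ^ (Fintype.card E * Fintype.card B)) := by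
  sorry

/-- T3 (uses T2): union bound. -/
theorem exists_good {E B : Type} [Fintype E] [DecidableEq E] [Fintype B] [DecidableEq B]
    (hB : 1 ≤ Fintype.card B) {D d L : ℕ} (f : Fin L → (E × B → Bool) → Bool)
    (P : Fin L → (E × B → Bool) → ℝ)
    (hP : ∀ i, P i ∈ LowDeg (E × B) D) (ε : ℝ) (hε0 : 0 ≤ ε) (hε1 : ε ≤ 1)
    (hf : ∀ i x, |P i x - ind (f i x)| ≤ ε)
    (hL : (L : ℝ) * (4 ^ (Fintype.card E) *
      (8 * (D.choose (d + 1) : ℝ) / (Fintype.card B : ℝ) ^ (d + 1) + 2 * ε ^ 2)) < 1) :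
    ∃ (σ : E → B) (u : E × B → Bool), ∀ i, (fun z => ind (f i (rst σ u z))) ∈ LowDeg E d := by
  sorry

/-- T4: from characters to juntas over the reals. -/
theorem to_J {E B : Type} [Fintype E] [DecidableEq E] [Fintype B] [DecidableEq B]
    (f : (E × B → Bool) → Bool) (σ : E → B) (u : E × B → Bool) (d : ℕ)
    (h : (fun z => ind (f (rst σ u z))) ∈ LowDeg E d) :
    Helper600R2.toK ℝ (fun y => f (Helper600R2.merge (fun p => (decide (p.2 = σ p.1), u p)) y)) ∈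
      Helper600R2.J (ι := E × B) (α := Bool) ℝ d := by
  sorry

/-- T5: a formula with `s` occurrences of variables is exactly a function of degree `s`. -/
theorem exact_degree {V : Type} (φ : QF.Fml V) :
    (fun x => ind (φ.eval x)) ∈ LowDeg V φ.size := by
  sorry

/-- T6 (uses T5 and `QF.formula_approx`): sums of `2 ^ e` formulas. -/
theorem sum_approx {V : Type} (e s D k T : ℕ) (F : (Fin e → Bool) → QF.Fml V)
    (hF : ∀ a, (F a).size ≤ s) (ε : ℝ) (hε : 0 ≤ ε)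
    (h : s ≤ D ∨ (1 ≤ k ∧ 1 ≤ T ∧ s ≤ k * T ^ 2 ∧ 12780 * k * T ≤ D ∧
      (2 : ℝ) ^ e * (1 / 4) ^ k ≤ ε)) :
    ∃ P ∈ LowDeg V D, ∀ x, |P x - ∑ a, ind ((F a).eval x)| ≤ ε := by
  sorry

/-- T7: elimination of the extension variables. -/
theorem elim {N ext : ℕ} (dfn : Fin ext → Fml (Fin N ⊕ Fin ext))
    (hlt : ∀ i j, (dfn i).Occurs (Sum.inr j) → j < i) (s : ℕ)
    (hs : ∑ i, (dfn i).count Sum.isLeft ≤ s) :
    ∃ Z : (Fin N → Bool) → (Fin ext → Bool),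
      (∀ x i, Z x i = (dfn i).eval (Sum.elim x (Z x))) ∧
      ∀ φ : Fml (Fin N ⊕ Fin ext), φ.count Sum.isLeft ≤ s →
        ∃ F : (Fin ext → Bool) → QF.Fml (Fin N), (∀ a, (F a).size ≤ 2 * s) ∧
          ∀ x, ind (φ.eval (Sum.elim x (Z x))) = ∑ a, ind ((F a).eval x) := by
  sorry

/-- T8a: numbers. -/
theorem num_a (k : ℕ) : ∃ η : ℝ, 0 < η ∧ ∃ n₀ : ℕ, ∀ n m D : ℕ, n₀ ≤ n → 1 ≤ m →
    (D : ℝ) ≤ η * (n * m) → ∃ d : ℕ, 2 * ((k + 1) * d + 4) ≤ n / 60 ∧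
      (2 : ℝ) ^ n * (4 ^ (2 * n) *
        (8 * (D.choose (d + 1) : ℝ) / (m : ℝ) ^ (d + 1) + 2 * ((1 / 2) ^ (6 * n)) ^ 2)) < 1 := by
  sorry

/-- T8b: numbers. -/
theorem num_b (η : ℝ) (hη : 0 < η) : ∃ c : ℝ, 0 < c ∧ c ≤ 1 ∧ ∀ n m e s : ℕ, 1 ≤ n → 1 ≤ m →
    (s : ℝ) * (e + n) ≤ c * (n * m) ^ 2 →
    ((2 * s : ℕ) : ℝ) ≤ η * (n * m) ∨ ∃ k T : ℕ, 1 ≤ k ∧ 1 ≤ T ∧ 2 * s ≤ k * T ^ 2 ∧
      ((12780 * k * T : ℕ) : ℝ) ≤ η * (n * m) ∧ (2 : ℝ) ^ e * (1 / 4) ^ k ≤ (1 / 2) ^ (6 * n) := by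
  sorry

/-- T9: parity formulas of quadratic size. -/
theorem exists_par {α : Type} [DecidableEq α] (S : Finset α) : ∃ φ : Fml α,
    φ.occ ≤ 4 * S.card ^ 2 ∧ (∀ a, φ.Occurs a → a ∈ S) ∧
    ∀ x, φ.eval x = decide ((S.filter (fun i => x i = true)).card % 2 = 1) := by
  sorry

/-- T10 (uses T9): refutation without extension variables. -/
theorem upper_zero {E B : Type} [Fintype E] [DecidableEq E] [Fintype B] [DecidableEq B]
    {n m N : ℕ} (hn : 1 ≤ n) (hm : 1 ≤ m) (hB : Fintype.card B = m)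
    (star : Fin n → Finset E) (hstar : ∀ v, (star v).card ≤ 4) (b : Fin n → Bool)
    (hunsat : ∀ y : E → Bool, ¬ ∀ v, XorHolds (star v) (b v) y)
    (eq : E × B ≃ Fin N) (k : ℕ) (hk : 2 ≤ k) :
    ∃ R : ExtRef (fun v => ((star v) ×ˢ (univ : Finset B)).map eq.toEmbedding) b k,
      R.ext = 0 ∧ (∀ i, (R.line i).occ ≤ 64 * (n * m ^ 2)) ∧ R.len ≤ 2 * n := by
  sorry

/-- T11 (uses T9): refutation with `q` extension variables for every block. -/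
theorem upper {E B : Type} [Fintype E] [DecidableEq E] [Fintype B] [DecidableEq B]
    {n m N : ℕ} (hn : 1 ≤ n) (hm : 1 ≤ m) (hE : Fintype.card E = 2 * n) (hB : Fintype.card B = m)
    (star : Fin n → Finset E) (hstar : ∀ v, (star v).card ≤ 4) (b : Fin n → Bool)
    (hunsat : ∀ y : E → Bool, ¬ ∀ v, XorHolds (star v) (b v) y)
    (eq : E × B ≃ Fin N) (k : ℕ) (hk : 2 ≤ k) (q : ℕ) (hq : 1 ≤ q) (hqm : q ≤ m) :
    ∃ R : ExtRef (fun v => ((star v) ×ˢ (univ : Finset B)).map eq.toEmbedding) b k,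
      R.ext = 2 * n * q ∧ (∑ i, (R.dfn i).occ) * q ≤ 1000 * (n * m ^ 2) ∧
      (∀ i, (R.line i).occ ≤ 1000 * (m ^ 2 + n)) ∧ R.len ≤ 1000 * (n * q) := by
  sorry

end Pool.Agent.H564R2.EF
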