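import Pool.Agent.H564R2.QF.Defs

/-!
# Extended Frege refutations of systems of parity constraints (semantic version)
-/

namespace Pool.Agent.H564R2.EF

/-- Propositional formulas over `⊤, ⊥, ¬, ∧, ∨, →` with variables from `α`. -/
inductive Fml (α : Type) : Type
  | tru : Fml α
  | fls : Fml α
  | var (a : α) : Fml α
  | neg (φ : Fml α) : Fml α
  | and (φ ψ : Fml α) : Fml α
  | or (φ ψ : Fml α) : Fml α
  | imp (φ ψ : Fml α) : Fml α

variable {α : Type}

/-- Truth value of a formula under an assignment. -/
def Fml.eval (x : α → Bool) : Fml α → Bool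
  | .tru => true
  | .fls => false
  | .var a => x a
  | .neg φ => !(φ.eval x)
  | .and φ ψ => φ.eval x && ψ.eval x
  | .or φ ψ => φ.eval x || ψ.eval x
  | .imp φ ψ => !(φ.eval x) || ψ.eval x

/-- Number of occurrences in a formula of variables `a` with `A a = true`. -/
def Fml.count (A : α → Bool) : Fml α → ℕ
  | .tru => 0
  | .fls => 0
  | .var a => if A a = true then 1 else 0
  | .neg φ => φ.count A
  | .and φ ψ => φ.count A + ψ.count A
  | .or φ ψ => φ.count A + ψ.count A
  | .imp φ ψ => φ.count A + ψ.count A

/-- Number of occurrences of variables in a formula. -/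
def Fml.occ (φ : Fml α) : ℕ := φ.count (fun _ => true)

/-- The variable `a` occurs in the formula. -/
def Fml.Occurs (a : α) : Fml α → Prop
  | .tru => False
  | .fls => False
  | .var b => b = a
  | .neg φ => φ.Occurs a
  | .and φ ψ => φ.Occurs a ∨ ψ.Occurs a
  | .or φ ψ => φ.Occurs a ∨ ψ.Occurs a
  | .imp φ ψ => φ.Occurs a ∨ ψ.Occurs a

/-- The parity constraint `⊕_{i ∈ S} x_i = b`. -/
def XorHolds {β : Type} (S : Finset β) (b : Bool) (x : β → Bool) : Prop :=
  (S.filter (fun i => x i = true)).card % 2 = 1 ↔ b = true

/-- A refutation, in the semantic version of extended Frege, of the system of parity constraints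
`⊕_{i ∈ S v} x_i = b v` in `N` variables. There are `ext` extension variables; `dfn j` is the
formula for which the extension variable `j` stands, and it contains only earlier extension
variables. Some line is identically false, and every line is implied by one constraint of the
system, or by one extension axiom `z_j ↔ dfn j`, or by at most `k` earlier lines. -/
structure ExtRef {N n : ℕ} (S : Fin n → Finset (Fin N)) (b : Fin n → Bool) (k : ℕ) where
  ext : ℕ
  dfn : Fin ext → Fml (Fin N ⊕ Fin ext)
  dfn_lt : ∀ i j, (dfn i).Occurs (Sum.inr j) → j < i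
  len : ℕ
  line : Fin len → Fml (Fin N ⊕ Fin ext)
  contra : ∃ i, ∀ x, (line i).eval x = false
  sound : ∀ i,
    (∃ v, ∀ x, XorHolds (S v) (b v) (fun a => x (Sum.inl a)) → (line i).eval x = true) ∨
    (∃ j, ∀ x, x (Sum.inr j) = (dfn j).eval x → (line i).eval x = true) ∨
    (∃ P : Finset (Fin len), P.card ≤ k ∧ (∀ j ∈ P, j < i) ∧
      ∀ x, (∀ j ∈ P, (line j).eval x = true) → (line i).eval x = true)

/-- The restriction of the variables `E × B` which leaves the variable `σ e` of every block `e`
alive, and gives the values `u` to the others. -/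
def rst {E B : Type} [DecidableEq B] (σ : E → B) (u : E × B → Bool) (z : E → Bool) :
    E × B → Bool :=
  fun p => if p.2 = σ p.1 then z p.1 else u p

/-- `0` or `1` -/
def ind (c : Bool) : ℝ := if c = true then 1 else 0

end Pool.Agent.H564R2.EF
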