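import Pool.Agent.H564R2.EF.Defs

/-!
# Elimination of the extension variables
-/

namespace Pool.Agent.H564R2.EF

open Finset

theorem Elim_eval_congr {α : Type} (φ : Fml α) {x y : α → Bool}
    (h : ∀ a, φ.Occurs a → x a = y a) : φ.eval x = φ.eval y := by
  induction φ with
  | tru => rfl
  | fls => rfl
  | var a => exact h a rfl
  | neg φ ih => simp only [Fml.eval]; rw [ih h]
  | and φ ψ ih1 ih2 =>
    simp only [Fml.eval]
    rw [ih1 fun a ha => h a (Or.inl ha), ih2 fun a ha => h a (Or.inr ha)]
  | or φ ψ ih1 ih2 =>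
    simp only [Fml.eval]
    rw [ih1 fun a ha => h a (Or.inl ha), ih2 fun a ha => h a (Or.inr ha)]
  | imp φ ψ ih1 ih2 =>
    simp only [Fml.eval]
    rw [ih1 fun a ha => h a (Or.inl ha), ih2 fun a ha => h a (Or.inr ha)]

section

variable {N ext : ℕ} (dfn : Fin ext → Fml (Fin N ⊕ Fin ext))

/-- the values of the extension variables, computed one after the other -/
def Elim_seq (x : Fin N → Bool) : ℕ → Fin ext → Bool
  | 0 => fun _ => false
  | t + 1 => fun j => if j.val = t then (dfn j).eval (Sum.elim x (Elim_seq x t))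
      else Elim_seq x t j

theorem Elim_seq_stable (x : Fin N → Bool) (j : Fin ext) (t : ℕ) (ht : j.val < t) :
    Elim_seq dfn x t j = Elim_seq dfn x (j.val + 1) j := by
  induction t with
  | zero => omega
  | succ t ih =>
    rcases Nat.lt_succ_iff_lt_or_eq.1 ht with h | h
    · rw [← ih h]
      simp only [Elim_seq]
      rw [if_neg (by omega)]
    · rw [h]

theorem Elim_exists (hlt : ∀ i j, (dfn i).Occurs (Sum.inr j) → j < i) (x : Fin N → Bool) :
    ∃ z : Fin ext → Bool, ∀ i, z i = (dfn i).eval (Sum.elim x z) := by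
  refine ⟨Elim_seq dfn x ext, fun i => ?_⟩
  rw [Elim_seq_stable dfn x i ext i.2]
  simp only [Elim_seq]
  rw [if_true]
  apply Elim_eval_congr
  rintro (a | j) ha
  · rfl
  · simp only [Sum.elim_inr]
    have hj : j < i := hlt i j ha
    rw [Elim_seq_stable dfn x j i.val hj, Elim_seq_stable dfn x j ext j.2]

theorem Elim_unique (hlt : ∀ i j, (dfn i).Occurs (Sum.inr j) → j < i) (x : Fin N → Bool)
    {z z' : Fin ext → Bool} (hz : ∀ i, z i = (dfn i).eval (Sum.elim x z))
    (hz' : ∀ i, z' i = (dfn i).eval (Sum.elim x z')) : z = z' := by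
  have h : ∀ n : ℕ, ∀ i : Fin ext, i.val = n → z i = z' i := by
    intro n
    induction n using Nat.strong_induction_on with
    | _ n ih =>
      intro i hi
      rw [hz, hz']
      apply Elim_eval_congr
      rintro (a | j) ha
      · rfl
      · simp only [Sum.elim_inr]
        have hj : j < i := hlt i j ha
        exact ih j.val (by rw [← hi]; exact hj) j rfl
  funext i
  exact h i.val i rfl

end

/-- substitution of constants for the extension variables -/
def Elim_spec {N ext : ℕ} (a : Fin ext → Bool) : Fml (Fin N ⊕ Fin ext) → QF.Fml (Fin N)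
  | .tru => .const true
  | .fls => .const false
  | .var (Sum.inl v) => .var v
  | .var (Sum.inr j) => .const (a j)
  | .neg φ => .neg (Elim_spec a φ)
  | .and φ ψ => .and (Elim_spec a φ) (Elim_spec a ψ)
  | .or φ ψ => .or (Elim_spec a φ) (Elim_spec a ψ)
  | .imp φ ψ => .or (.neg (Elim_spec a φ)) (Elim_spec a ψ)

theorem Elim_spec_size {N ext : ℕ} (a : Fin ext → Bool) (φ : Fml (Fin N ⊕ Fin ext)) :
    (Elim_spec a φ).size = φ.count Sum.isLeft := by
  induction φ with
  | tru => rfl
  | fls => rfl
  | var v => rcases v with v | j <;> simp [Elim_spec, QF.Fml.size, Fml.count]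
  | neg φ ih => simp only [Elim_spec, QF.Fml.size, Fml.count]; exact ih
  | and φ ψ ih1 ih2 => simp only [Elim_spec, QF.Fml.size, Fml.count]; rw [ih1, ih2]
  | or φ ψ ih1 ih2 => simp only [Elim_spec, QF.Fml.size, Fml.count]; rw [ih1, ih2]
  | imp φ ψ ih1 ih2 => simp only [Elim_spec, QF.Fml.size, Fml.count]; rw [ih1, ih2]

theorem Elim_spec_eval {N ext : ℕ} (a : Fin ext → Bool) (x : Fin N → Bool)
    (φ : Fml (Fin N ⊕ Fin ext)) : (Elim_spec a φ).eval x = φ.eval (Sum.elim x a) := by
  induction φ with
  | tru => rfl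
  | fls => rfl
  | var v => rcases v with v | j <;> rfl
  | neg φ ih => simp only [Elim_spec, QF.Fml.eval, Fml.eval]; rw [ih]
  | and φ ψ ih1 ih2 => simp only [Elim_spec, QF.Fml.eval, Fml.eval]; rw [ih1, ih2]
  | or φ ψ ih1 ih2 => simp only [Elim_spec, QF.Fml.eval, Fml.eval]; rw [ih1, ih2]
  | imp φ ψ ih1 ih2 => simp only [Elim_spec, QF.Fml.eval, Fml.eval]; rw [ih1, ih2]

/-- conjunction of a list -/
def Elim_conj {V : Type} : List (QF.Fml V) → QF.Fml V
  | [] => .const true
  | φ :: l => .and φ (Elim_conj l)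

theorem Elim_conj_size {V : Type} (l : List (QF.Fml V)) :
    (Elim_conj l).size = (l.map QF.Fml.size).sum := by
  induction l with
  | nil => rfl
  | cons φ l ih => simp only [Elim_conj, QF.Fml.size, List.map_cons, List.sum_cons]; rw [ih]

theorem Elim_conj_eval {V : Type} (l : List (QF.Fml V)) (x : V → Bool) :
    (Elim_conj l).eval x = true ↔ ∀ φ ∈ l, φ.eval x = true := by
  induction l with
  | nil => simp [Elim_conj, QF.Fml.eval]
  | cons φ l ih =>
    simp only [Elim_conj, QF.Fml.eval, Bool.and_eq_true, List.mem_cons, forall_eq_or_imp]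
    rw [ih]

/-- the statement that the extension axiom `i` holds for the values `a` -/
def Elim_ax {N ext : ℕ} (dfn : Fin ext → Fml (Fin N ⊕ Fin ext)) (a : Fin ext → Bool)
    (i : Fin ext) : QF.Fml (Fin N) :=
  if a i = true then Elim_spec a (dfn i) else .neg (Elim_spec a (dfn i))

theorem Elim_ax_size {N ext : ℕ} (dfn : Fin ext → Fml (Fin N ⊕ Fin ext)) (a : Fin ext → Bool)
    (i : Fin ext) : (Elim_ax dfn a i).size = (dfn i).count Sum.isLeft := by
  unfold Elim_ax
  split_ifs
  · exact Elim_spec_size a _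
  · exact Elim_spec_size a _

theorem Elim_ax_eval {N ext : ℕ} (dfn : Fin ext → Fml (Fin N ⊕ Fin ext)) (a : Fin ext → Bool)
    (i : Fin ext) (x : Fin N → Bool) :
    (Elim_ax dfn a i).eval x = true ↔ a i = (dfn i).eval (Sum.elim x a) := by
  unfold Elim_ax
  split_ifs with h
  · rw [Elim_spec_eval, h]
    exact eq_comm
  · simp only [QF.Fml.eval]
    rw [Elim_spec_eval]
    rw [Bool.not_eq_true] at h
    rw [h]
    cases (dfn i).eval (Sum.elim x a) <;> simp

/-- T7: elimination of the extension variables. -/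
theorem elim {N ext : ℕ} (dfn : Fin ext → Fml (Fin N ⊕ Fin ext))
    (hlt : ∀ i j, (dfn i).Occurs (Sum.inr j) → j < i) (s : ℕ)
    (hs : ∑ i, (dfn i).count Sum.isLeft ≤ s) :
    ∃ Z : (Fin N → Bool) → (Fin ext → Bool),
      (∀ x i, Z x i = (dfn i).eval (Sum.elim x (Z x))) ∧
      ∀ φ : Fml (Fin N ⊕ Fin ext), φ.count Sum.isLeft ≤ s →
        ∃ F : (Fin ext → Bool) → QF.Fml (Fin N), (∀ a, (F a).size ≤ 2 * s) ∧
          ∀ x, ind (φ.eval (Sum.elim x (Z x))) = ∑ a, ind ((F a).eval x) := by
  choose Z hZ using Elim_exists dfn hlt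
  refine ⟨Z, hZ, fun φ hφ => ?_⟩
  refine ⟨fun a => .and (Elim_conj ((List.finRange ext).map (Elim_ax dfn a))) (Elim_spec a φ),
    fun a => ?_, fun x => ?_⟩
  · simp only [QF.Fml.size]
    rw [Elim_conj_size, Elim_spec_size, List.map_map]
    have h1 : ((List.finRange ext).map (QF.Fml.size ∘ Elim_ax dfn a)).sum =
        ∑ i, (dfn i).count Sum.isLeft := by
      rw [← List.ofFn_eq_map, List.sum_ofFn]
      refine Finset.sum_congr rfl fun i _ => ?_
      exact Elim_ax_size dfn a i
    rw [h1]
    omega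
  · have h1 : ∀ a, ind ((QF.Fml.and (Elim_conj ((List.finRange ext).map (Elim_ax dfn a)))
        (Elim_spec a φ)).eval x) =
        if a = Z x then ind (φ.eval (Sum.elim x (Z x))) else 0 := by
      intro a
      split_ifs with h
      · congr 1
        simp only [QF.Fml.eval]
        have h2 : (Elim_conj ((List.finRange ext).map (Elim_ax dfn a))).eval x = true := by
          rw [Elim_conj_eval]
          intro ψ hψ
          obtain ⟨i, _, rfl⟩ := List.mem_map.1 hψ
          rw [Elim_ax_eval, h]
          exact hZ x i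
        rw [h2, Bool.true_and, Elim_spec_eval, h]
      · unfold ind
        rw [if_neg]
        intro h2
        apply h
        simp only [QF.Fml.eval, Bool.and_eq_true] at h2
        rw [Elim_conj_eval] at h2
        refine Elim_unique dfn hlt x (fun i => ?_) (hZ x)
        rw [← Elim_ax_eval dfn a i x]
        exact h2.1 _ (List.mem_map.2 ⟨i, List.mem_finRange i, rfl⟩)
    rw [Finset.sum_congr rfl fun a _ => h1 a]
    rw [Finset.sum_ite_eq' Finset.univ (Z x), if_pos (Finset.mem_univ _)]

end Pool.Agent.H564R2.EF
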