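import Pool.Agent.H564R2.EF.Defs

/-! A formula with `s` occurrences of variables is exactly a function of degree `s`. -/

namespace Pool.Agent.H564R2.EF

open Finset
open Pool.Agent.H564R2.QF (LowDeg chi)

/-- T5: a formula with `s` occurrences of variables is exactly a function of degree `s`. -/
theorem exact_degree {V : Type} (φ : QF.Fml V) :
    (fun x => ind (φ.eval x)) ∈ LowDeg V φ.size := by
  induction φ with
  | const b =>
    exact LowDeg.const 0 (ind b)
  | var v =>
    have h := LowDeg.lit v true
    exact h
  | neg f ih =>
    have h : (fun x => ind ((QF.Fml.neg f).eval x)) =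
        (fun _ => (1 : ℝ)) - fun x => ind (f.eval x) := by
      funext x
      simp only [QF.Fml.eval, Pi.sub_apply]
      cases f.eval x <;> simp [ind]
    rw [h]
    exact Submodule.sub_mem _ (LowDeg.const _ 1) ih
  | and f g ihf ihg =>
    have h : (fun x => ind ((QF.Fml.and f g).eval x)) =
        (fun x => ind (f.eval x)) * fun x => ind (g.eval x) := by
      funext x
      simp only [QF.Fml.eval, Pi.mul_apply]
      cases f.eval x <;> cases g.eval x <;> simp [ind]
    rw [h]
    exact LowDeg.mul ihf ihg
  | or f g ihf ihg =>
    have h : (fun x => ind ((QF.Fml.or f g).eval x)) =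
        ((fun x => ind (f.eval x)) + fun x => ind (g.eval x)) -
          (fun x => ind (f.eval x)) * fun x => ind (g.eval x) := by
      funext x
      simp only [QF.Fml.eval, Pi.mul_apply, Pi.add_apply, Pi.sub_apply]
      cases f.eval x <;> cases g.eval x <;> simp [ind]
    rw [h]
    refine Submodule.sub_mem _ (Submodule.add_mem _ ?_ ?_) (LowDeg.mul ihf ihg)
    · exact LowDeg.of_le ihf (Nat.le_add_right _ _)
    · exact LowDeg.of_le ihg (Nat.le_add_left _ _)

end Pool.Agent.H564R2.EF
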