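import Pool.Agent.H564R2.EF.Shrink

/-!
# A good restriction exists (union bound)
-/

namespace Pool.Agent.H564R2.EF

open Finset
open Pool.Agent.H564R2.QF (LowDeg chi)

/-- T3 (uses T2): union bound. -/
theorem exists_good {E B : Type} [Fintype E] [DecidableEq E] [Fintype B] [DecidableEq B]
    (hB : 1 ≤ Fintype.card B) {D d L : ℕ} (f : Fin L → (E × B → Bool) → Bool)
    (P : Fin L → (E × B → Bool) → ℝ)
    (hP : ∀ i, P i ∈ LowDeg (E × B) D) (ε : ℝ) (hε0 : 0 ≤ ε) (hε1 : ε ≤ 1)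
    (hf : ∀ i x, |P i x - ind (f i x)| ≤ ε)
    (hL : (L : ℝ) * (4 ^ (Fintype.card E) *
      (8 * (D.choose (d + 1) : ℝ) / (Fintype.card B : ℝ) ^ (d + 1) + 2 * ε ^ 2)) < 1) :
    ∃ (σ : E → B) (u : E × B → Bool), ∀ i, (fun z => ind (f i (rst σ u z))) ∈ LowDeg E d := by
  classical
  by_contra hcon
  push Not at hcon
  set bad : Fin L → Finset ((E → B) × (E × B → Bool)) := fun i =>
    univ.filter (fun p => (fun z => ind (f i (rst p.1 p.2 z))) ∉ LowDeg E d) with hbad
  have h1 : (univ : Finset ((E → B) × (E × B → Bool))) ⊆ univ.biUnion bad := by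
    rintro ⟨σ, u⟩ _
    obtain ⟨i, hi⟩ := hcon σ u
    rw [Finset.mem_biUnion]
    exact ⟨i, Finset.mem_univ _, Finset.mem_filter.2 ⟨Finset.mem_univ _, hi⟩⟩
  set M : ℝ := (Fintype.card B : ℝ) ^ (Fintype.card E) * 2 ^ (Fintype.card E * Fintype.card B)
    with hM
  have hBpos : (0 : ℝ) < Fintype.card B := by exact_mod_cast hB
  have hMpos : 0 < M := by positivity
  have hcard : ((univ : Finset ((E → B) × (E × B → Bool))).card : ℝ) = M := by
    rw [Finset.card_univ, Fintype.card_prod, Fintype.card_fun, Fintype.card_fun,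
      Fintype.card_prod, Fintype.card_bool, hM]
    push_cast
    ring
  set c : ℝ := 4 ^ (Fintype.card E) *
      (8 * (D.choose (d + 1) : ℝ) / (Fintype.card B : ℝ) ^ (d + 1) + 2 * ε ^ 2) with hc
  have h2 : ∀ i, ((bad i).card : ℝ) ≤ c * M := fun i =>
    shrink_one hB (f i) (P i) (hP i) ε hε0 hε1 (hf i) (bad i) fun p hp =>
      (Finset.mem_filter.1 hp).2
  have h3 : M ≤ L * (c * M) := by
    calc M = ((univ : Finset ((E → B) × (E × B → Bool))).card : ℝ) := hcard.symm
      _ ≤ ((univ.biUnion bad).card : ℝ) := by exact_mod_cast Finset.card_le_card h1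
      _ ≤ ((∑ i, (bad i).card : ℕ) : ℝ) := by exact_mod_cast Finset.card_biUnion_le
      _ = ∑ i, ((bad i).card : ℝ) := by push_cast; rfl
      _ ≤ ∑ i : Fin L, c * M := Finset.sum_le_sum fun i _ => h2 i
      _ = L * (c * M) := by
          rw [Finset.sum_const, Finset.card_univ, Fintype.card_fin, nsmul_eq_mul]
  nlinarith

end Pool.Agent.H564R2.EF
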