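import Mathlib

/-!
# Counting maps whose graph meets a small set often
-/

namespace Pool.Agent.H564R2.EF

open Finset

theorem hits_fix {E B : Type} [Fintype E] [DecidableEq E] [Fintype B] [DecidableEq B]
    (T : Finset (E × B)) :
    (univ.filter (fun σ : E → B => ∀ p ∈ T, σ p.1 = p.2)).card * Fintype.card B ^ T.card ≤
      Fintype.card B ^ Fintype.card E := by
  by_cases hinj : ∀ p ∈ T, ∀ q ∈ T, p.1 = q.1 → p = q
  · have hc : (T.image Prod.fst).card = T.card := by
      apply Finset.card_image_of_injOn
      intro p hp q hq h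
      exact hinj p hp q hq h
    have h1 : ((univ.filter (fun σ : E → B => ∀ p ∈ T, σ p.1 = p.2)) ×ˢ
        (univ : Finset ((T.image Prod.fst) → B))).card ≤ (univ : Finset (E → B)).card := by
      refine Finset.card_le_card_of_injOn
        (fun q e => if h : e ∈ T.image Prod.fst then q.2 ⟨e, h⟩ else q.1 e)
        (fun _ _ => Finset.mem_coe.2 (Finset.mem_univ _)) ?_
      rintro ⟨σ, τ⟩ h ⟨σ', τ'⟩ h' heq
      have hσ := (Finset.mem_filter.1 (Finset.mem_product.1 (Finset.mem_coe.1 h)).1).2
      have hσ' := (Finset.mem_filter.1 (Finset.mem_product.1 (Finset.mem_coe.1 h')).1).2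
      simp only at hσ hσ' heq
      rw [Prod.mk.injEq]
      constructor
      · funext e
        by_cases he : e ∈ T.image Prod.fst
        · obtain ⟨p, hp, rfl⟩ := Finset.mem_image.1 he
          rw [hσ p hp, hσ' p hp]
        · have := congrFun heq e
          rw [dif_neg he, dif_neg he] at this
          exact this
      · funext e
        have := congrFun heq e.1
        rw [dif_pos e.2, dif_pos e.2] at this
        exact this
    rw [Finset.card_product, Finset.card_univ, Finset.card_univ, Fintype.card_fun,
      Fintype.card_fun, Fintype.card_coe, hc] at h1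
    exact h1
  · push Not at hinj
    obtain ⟨p, hp, q, hq, h1, h2⟩ := hinj
    have h3 : (univ.filter (fun σ : E → B => ∀ p ∈ T, σ p.1 = p.2)) = ∅ := by
      rw [Finset.filter_eq_empty_iff]
      intro σ _ h
      apply h2
      have e1 := h p hp
      have e2 := h q hq
      rw [h1] at e1
      exact Prod.ext h1 (e1.symm.trans e2)
    rw [h3, Finset.card_empty, zero_mul]
    exact Nat.zero_le _

/-- T1 -/
theorem hits {E B : Type} [Fintype E] [DecidableEq E] [Fintype B] [DecidableEq B]
    (U : Finset (E × B)) (D t : ℕ) (hU : U.card ≤ D) :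
    ((univ.filter (fun σ : E → B =>
      t ≤ (univ.filter (fun e => (e, σ e) ∈ U)).card)).card : ℝ) * (Fintype.card B : ℝ) ^ t ≤
      D.choose t * (Fintype.card B : ℝ) ^ (Fintype.card E) := by
  have h1 : univ.filter (fun σ : E → B => t ≤ (univ.filter (fun e => (e, σ e) ∈ U)).card) ⊆
      (U.powersetCard t).biUnion
        (fun T => univ.filter (fun σ : E → B => ∀ p ∈ T, σ p.1 = p.2)) := by
    intro σ hσ
    obtain ⟨A, hA, hAc⟩ := Finset.exists_subset_card_eq (Finset.mem_filter.1 hσ).2
    rw [Finset.mem_biUnion]
    refine ⟨A.image (fun e => (e, σ e)), ?_, ?_⟩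
    · rw [Finset.mem_powersetCard]
      constructor
      · intro p hp
        obtain ⟨e, he, rfl⟩ := Finset.mem_image.1 hp
        exact (Finset.mem_filter.1 (hA he)).2
      · rw [Finset.card_image_of_injective, hAc]
        intro e e' h
        exact congrArg Prod.fst h
    · rw [Finset.mem_filter]
      refine ⟨Finset.mem_univ _, ?_⟩
      intro p hp
      obtain ⟨e, _, rfl⟩ := Finset.mem_image.1 hp
      rfl
  have h2 : (univ.filter (fun σ : E → B =>
      t ≤ (univ.filter (fun e => (e, σ e) ∈ U)).card)).card * Fintype.card B ^ t ≤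
      D.choose t * Fintype.card B ^ Fintype.card E := by
    calc _ ≤ (∑ T ∈ U.powersetCard t,
          (univ.filter (fun σ : E → B => ∀ p ∈ T, σ p.1 = p.2)).card) * Fintype.card B ^ t :=
          Nat.mul_le_mul_right _ ((Finset.card_le_card h1).trans Finset.card_biUnion_le)
      _ = ∑ T ∈ U.powersetCard t,
          (univ.filter (fun σ : E → B => ∀ p ∈ T, σ p.1 = p.2)).card * Fintype.card B ^ t := by
          rw [Finset.sum_mul]
      _ ≤ ∑ T ∈ U.powersetCard t, Fintype.card B ^ Fintype.card E := by
          refine Finset.sum_le_sum fun T hT => ?_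
          have := hits_fix T
          rw [(Finset.mem_powersetCard.1 hT).2] at this
          exact this
      _ = U.card.choose t * Fintype.card B ^ Fintype.card E := by
          rw [Finset.sum_const, Finset.card_powersetCard, smul_eq_mul]
      _ ≤ _ := Nat.mul_le_mul_right _ (Nat.choose_le_choose t hU)
  exact_mod_cast h2

end Pool.Agent.H564R2.EF
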