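import Mathlib

/-!
EF8a (helper409): numbers.
-/

namespace Pool.Agent.H564R2.EF

/-- T8a: numbers. -/
theorem num_a (k : ℕ) : ∃ η : ℝ, 0 < η ∧ ∃ n₀ : ℕ, ∀ n m D : ℕ, n₀ ≤ n → 1 ≤ m →
    (D : ℝ) ≤ η * (n * m) → ∃ d : ℕ, 2 * ((k + 1) * d + 4) ≤ n / 60 ∧
      (2 : ℝ) ^ n * (4 ^ (2 * n) *
        (8 * (D.choose (d + 1) : ℝ) / (m : ℝ) ^ (d + 1) + 2 * ((1 / 2) ^ (6 * n)) ^ 2)) < 1 := by
  set a := k + 1 with ha
  have ha1 : 1 ≤ a := by omega
  set K := 240 * a with hK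
  have hKpos : (0 : ℝ) < (K : ℝ) := by
    have : 0 < K := by omega
    exact_mod_cast this
  refine ⟨1 / (3 * K * 2 ^ (8 * K)), by positivity, 1080, ?_⟩
  intro n m D hn hm hD
  set η : ℝ := 1 / (3 * K * 2 ^ (8 * K)) with hη
  have hηpos : 0 < η := by rw [hη]; positivity
  set d := (n / 60 - 8) / (2 * a) with hd
  have h18 : 18 ≤ n / 60 := by omega
  have hd1 : 2 * a * d ≤ n / 60 - 8 := Nat.mul_div_le _ _
  have hd2 : n / 60 - 8 < 2 * a * (d + 1) := by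
    have := Nat.lt_mul_div_succ (n / 60 - 8) (show 0 < 2 * a by omega)
    exact this
  refine ⟨d, ?_, ?_⟩
  · have : 2 * (a * d + 4) = 2 * a * d + 8 := by ring
    omega
  · set t := d + 1 with ht
    have hat : 2 * a * t = 2 * (a * t) := by ring
    have hnK : n ≤ K * t := by
      have h1 : K * t = 240 * (a * t) := by rw [hK]; ring
      rw [h1]
      rw [hat] at hd2
      omega
    have hm' : (0 : ℝ) < (m : ℝ) := by exact_mod_cast hm
    -- binomial bound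
    have h1 : (D.choose t : ℝ) ≤ (D : ℝ) ^ t / (t.factorial : ℝ) := Nat.choose_le_pow_div t D
    have h2 : (t : ℝ) ^ t / (t.factorial : ℝ) ≤ 3 ^ t := by
      have h3 : (t : ℝ) ^ t / (t.factorial : ℝ) ≤ Real.exp t :=
        Real.pow_div_factorial_le_exp (t : ℝ) (Nat.cast_nonneg t) t
      refine h3.trans ?_
      have h4 : Real.exp (t : ℝ) = (Real.exp 1) ^ t := by
        rw [← Real.exp_nat_mul, mul_one]
      rw [h4]
      exact pow_le_pow_left₀ (Real.exp_pos 1).le (by linarith [Real.exp_one_lt_d9]) t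
    have hfac : (0 : ℝ) < (t.factorial : ℝ) := by exact_mod_cast t.factorial_pos
    have h5 : (D.choose t : ℝ) / (m : ℝ) ^ t ≤ (1 / 2 ^ (8 * K)) ^ t := by
      have hnr : (n : ℝ) ≤ K * t := by exact_mod_cast hnK
      have hDm : (D : ℝ) / m ≤ η * (K * t) := by
        rw [div_le_iff₀ hm']
        calc (D : ℝ) ≤ η * (n * m) := hD
          _ ≤ η * (K * t * m) := by gcongr
          _ = η * (K * t) * m := by ring
      calc (D.choose t : ℝ) / (m : ℝ) ^ t ≤ ((D : ℝ) ^ t / (t.factorial : ℝ)) / (m : ℝ) ^ t := by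
            gcongr
        _ = ((D : ℝ) / m) ^ t / (t.factorial : ℝ) := by
            rw [div_pow]; field_simp
        _ ≤ (η * (K * t)) ^ t / (t.factorial : ℝ) := by gcongr
        _ = (η * K) ^ t * ((t : ℝ) ^ t / (t.factorial : ℝ)) := by
            rw [← mul_assoc, mul_pow]; ring
        _ ≤ (η * K) ^ t * 3 ^ t := by gcongr
        _ = (1 / 2 ^ (8 * K)) ^ t := by
            rw [← mul_pow]
            congr 1
            rw [hη]; field_simp
    have h6 : ((1 : ℝ) / 2 ^ (8 * K)) ^ t ≤ (1 / 2) ^ (8 * n) := by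
      have h7 : ((1 : ℝ) / 2 ^ (8 * K)) ^ t = (1 / 2) ^ (8 * K * t) := by
        rw [pow_mul (1 / 2 : ℝ) (8 * K) t, one_div_pow (2 : ℝ) (8 * K)]
      rw [h7]
      apply pow_le_pow_of_le_one (by norm_num) (by norm_num)
      calc 8 * n ≤ 8 * (K * t) := Nat.mul_le_mul_left 8 hnK
        _ = 8 * K * t := by ring
    have h8 : 8 * (D.choose t : ℝ) / (m : ℝ) ^ t ≤ 8 * (1 / 2) ^ (8 * n) := by
      rw [mul_div_assoc]
      have := h5.trans h6
      linarith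
    have e1 : (2 : ℝ) ^ n * 4 ^ (2 * n) = 2 ^ (5 * n) := by
      have : (4 : ℝ) = 2 ^ 2 := by norm_num
      rw [this, ← pow_mul, ← pow_add]
      congr 1; ring
    have e2 : (2 : ℝ) ^ (5 * n) * (1 / 2) ^ (8 * n) = (1 / 2) ^ (3 * n) := by
      have : 8 * n = 5 * n + 3 * n := by ring
      rw [this, pow_add, ← mul_assoc, ← mul_pow]
      norm_num
    have e3 : (2 : ℝ) ^ (5 * n) * ((1 / 2) ^ (6 * n)) ^ 2 ≤ (1 / 2) ^ (3 * n) := by
      have : ((1 / 2 : ℝ) ^ (6 * n)) ^ 2 ≤ (1 / 2) ^ (8 * n) := by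
        rw [← pow_mul]
        exact pow_le_pow_of_le_one (by norm_num) (by norm_num) (by omega)
      calc (2 : ℝ) ^ (5 * n) * ((1 / 2) ^ (6 * n)) ^ 2 ≤ 2 ^ (5 * n) * (1 / 2) ^ (8 * n) := by
            gcongr
        _ = _ := e2
    have e4 : ((1 : ℝ) / 2) ^ (3 * n) ≤ (1 / 2) ^ 4 :=
      pow_le_pow_of_le_one (by norm_num) (by norm_num) (by omega)
    calc (2 : ℝ) ^ n * (4 ^ (2 * n) *
        (8 * (D.choose t : ℝ) / (m : ℝ) ^ t + 2 * ((1 / 2) ^ (6 * n)) ^ 2))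
        = 2 ^ (5 * n) * (8 * (D.choose t : ℝ) / (m : ℝ) ^ t) +
          2 * (2 ^ (5 * n) * ((1 / 2) ^ (6 * n)) ^ 2) := by
          rw [← mul_assoc, e1]; ring
      _ ≤ 2 ^ (5 * n) * (8 * (1 / 2) ^ (8 * n)) + 2 * (1 / 2) ^ (3 * n) := by
          gcongr
      _ = 10 * (1 / 2) ^ (3 * n) := by
          rw [mul_left_comm, e2]; ring
      _ ≤ 10 * (1 / 2) ^ 4 := by gcongr
      _ < 1 := by norm_num

end Pool.Agent.H564R2.EF
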