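import Mathlib

/-!
EF8b (helper409): numbers.
-/

namespace Pool.Agent.H564R2.EF

/-- T8b: numbers. -/
theorem num_b (η : ℝ) (hη : 0 < η) : ∃ c : ℝ, 0 < c ∧ c ≤ 1 ∧ ∀ n m e s : ℕ, 1 ≤ n → 1 ≤ m →
    (s : ℝ) * (e + n) ≤ c * (n * m) ^ 2 →
    ((2 * s : ℕ) : ℝ) ≤ η * (n * m) ∨ ∃ k T : ℕ, 1 ≤ k ∧ 1 ≤ T ∧ 2 * s ≤ k * T ^ 2 ∧
      ((12780 * k * T : ℕ) : ℝ) ≤ η * (n * m) ∧ (2 : ℝ) ^ e * (1 / 4) ^ k ≤ (1 / 2) ^ (6 * n) := by
  have hc0 : 0 < min (1 : ℝ) (η ^ 2 / (32 * 12780 ^ 2)) := lt_min one_pos (by positivity)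
  refine ⟨min 1 (η ^ 2 / (32 * 12780 ^ 2)), hc0, min_le_left _ _, ?_⟩
  intro n m e s hn hm hs
  set c := min (1 : ℝ) (η ^ 2 / (32 * 12780 ^ 2)) with hc
  have hcle : c ≤ η ^ 2 / (32 * 12780 ^ 2) := min_le_right _ _
  have hn' : (1 : ℝ) ≤ n := by exact_mod_cast hn
  have hm' : (1 : ℝ) ≤ m := by exact_mod_cast hm
  set X : ℝ := n * m with hX
  have hX1 : 0 < X := by rw [hX]; positivity
  by_cases h : ((2 * s : ℕ) : ℝ) ≤ η * X
  · exact Or.inl h
  · right
    push Not at h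
    push_cast at h
    set k := 4 * (n + e) with hk
    have hk1 : 0 < k := by omega
    set T := Nat.sqrt (2 * s / k) + 1 with hT
    have hkr : (k : ℝ) = 4 * (n + e) := by rw [hk]; push_cast; ring
    have hkpos : (0 : ℝ) < k := by exact_mod_cast hk1
    have hen : (0 : ℝ) ≤ e := Nat.cast_nonneg e
    refine ⟨k, T, hk1, by omega, ?_, ?_, ?_⟩
    · have h1 : 2 * s / k < T ^ 2 := by
        rw [hT, sq]
        exact Nat.lt_succ_sqrt _
      have h2 : 2 * s < k * T ^ 2 := by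
        rw [mul_comm k]
        exact (Nat.div_lt_iff_lt_mul hk1).1 h1
      exact h2.le
    · set R := Nat.sqrt (2 * s / k) with hR
      have h1 : k * R ^ 2 ≤ 2 * s := by
        have h2 : R ^ 2 ≤ 2 * s / k := by
          rw [sq]; exact Nat.sqrt_le _
        calc k * R ^ 2 ≤ k * (2 * s / k) := Nat.mul_le_mul_left k h2
          _ ≤ 2 * s := Nat.mul_div_le _ _
      have h1r : (k : ℝ) * (R : ℝ) ^ 2 ≤ 2 * s := by exact_mod_cast h1
      have hRr : (0 : ℝ) ≤ R := Nat.cast_nonneg R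
      have h3 : ((12780 : ℝ) * k * R) ^ 2 ≤ (η * X / 2) ^ 2 := by
        calc ((12780 : ℝ) * k * R) ^ 2 = 12780 ^ 2 * (k : ℝ) * ((k : ℝ) * (R : ℝ) ^ 2) := by ring
          _ ≤ 12780 ^ 2 * (k : ℝ) * (2 * (s : ℝ)) := by gcongr
          _ = 8 * 12780 ^ 2 * ((s : ℝ) * ((e : ℝ) + n)) := by rw [hkr]; ring
          _ ≤ 8 * 12780 ^ 2 * (c * X ^ 2) := by gcongr
          _ ≤ 8 * 12780 ^ 2 * (η ^ 2 / (32 * 12780 ^ 2) * X ^ 2) := by gcongr
          _ = (η * X / 2) ^ 2 := by ring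
      have h4 : (12780 : ℝ) * k * R ≤ η * X / 2 := by
        have := abs_le_of_sq_le_sq h3 (by positivity)
        exact (le_abs_self _).trans this
      have h5 : (12780 : ℝ) * k ≤ η * X / 2 := by
        have h6 : η * X / 2 * (e + n) ≤ c * X ^ 2 := by
          refine le_trans ?_ hs
          have : η * X / 2 ≤ s := by linarith
          gcongr
        have h7 : η * (e + n) ≤ 2 * c * X := by
          have : X * (η * (e + n)) ≤ X * (2 * c * X) := by nlinarith
          exact le_of_mul_le_mul_left this hX1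
        have h8 : η * (12780 * k) ≤ η * (η * X / 2) := by
          calc η * (12780 * k) = 4 * 12780 * (η * (e + n)) := by rw [hkr]; ring
            _ ≤ 4 * 12780 * (2 * c * X) := by gcongr
            _ ≤ 4 * 12780 * (2 * (η ^ 2 / (32 * 12780 ^ 2)) * X) := by gcongr
            _ = η ^ 2 * X * (1 / (4 * 12780)) := by ring
            _ ≤ η ^ 2 * X * (1 / 2) := by
              have : 0 ≤ η ^ 2 * X := by positivity
              apply mul_le_mul_of_nonneg_left _ this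
              norm_num
            _ = η * (η * X / 2) := by ring
        exact le_of_mul_le_mul_left h8 hη
      push_cast
      have hTR : (T : ℝ) = R + 1 := by rw [hT]; push_cast; ring
      have : (12780 : ℝ) * k * (T : ℝ) = 12780 * k * R + 12780 * k := by rw [hTR]; ring
      push_cast at this
      first
        | (rw [this]; linarith)
        | (have h9 := this; simp only [hT] at h9 ⊢; push_cast at h9 ⊢; linarith)
    · have h1 : ((1 : ℝ) / 4) ^ k = (1 / 2) ^ (6 * n) * (1 / 2) ^ (2 * n + 7 * e) * (1 / 2) ^ e := by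
        have : (1 : ℝ) / 4 = (1 / 2) ^ 2 := by norm_num
        rw [this, ← pow_mul, ← pow_add, ← pow_add]
        congr 1
        rw [hk]; ring
      rw [h1]
      have h2 : (2 : ℝ) ^ e * ((1 / 2) ^ (6 * n) * (1 / 2) ^ (2 * n + 7 * e) * (1 / 2) ^ e) =
          (1 / 2) ^ (6 * n) * (1 / 2) ^ (2 * n + 7 * e) := by
        have : (2 : ℝ) ^ e * (1 / 2) ^ e = 1 := by
          rw [← mul_pow]; norm_num
        calc _ = ((1 / 2) ^ (6 * n) * (1 / 2) ^ (2 * n + 7 * e)) * ((2 : ℝ) ^ e * (1 / 2) ^ e) := by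
              ring
          _ = _ := by rw [this, mul_one]
      rw [h2]
      have h3 : ((1 : ℝ) / 2) ^ (2 * n + 7 * e) ≤ 1 := pow_le_one₀ (by norm_num) (by norm_num)
      have h4 : (0 : ℝ) ≤ (1 / 2) ^ (6 * n) := by positivity
      nlinarith

end Pool.Agent.H564R2.EF
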