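import Pool.Agent.H564R2.EF.Defs

/-!
T9: parity formulas of quadratic size (splitting the set in two halves; the number of occurrences
`f` satisfies `2 f + 1 ≤ 3 |S|²`).
-/

namespace Pool.Agent.H564R2.EF

theorem ef9_core {α : Type} [DecidableEq α] (n : ℕ) : 1 ≤ n → ∀ S : Finset α, S.card = n →
    ∃ φ : Fml α, 2 * φ.occ + 1 ≤ 3 * n ^ 2 ∧ (∀ a, φ.Occurs a → a ∈ S) ∧
    ∀ x, φ.eval x = decide ((S.filter (fun i => x i = true)).card % 2 = 1) := by
  induction n using Nat.strong_induction_on with
  | _ n ih =>
    intro hn S hS
    rcases Nat.lt_or_ge n 2 with h | h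
    · have h1 : n = 1 := by omega
      subst h1
      obtain ⟨a, rfl⟩ := Finset.card_eq_one.1 hS
      refine ⟨.var a, by simp [Fml.occ, Fml.count], ?_, fun x => ?_⟩
      · intro b hb
        simp only [Fml.Occurs] at hb
        simp [hb]
      · simp only [Fml.eval, Finset.filter_singleton]
        cases x a <;> simp
    · obtain ⟨S1, hS1, hc1⟩ := Finset.exists_subset_card_eq (show n / 2 ≤ S.card by omega)
      have hc2 : (S \ S1).card = n - n / 2 := by
        rw [Finset.card_sdiff_of_subset hS1, hS, hc1]
      obtain ⟨φ, h1, h2, h3⟩ := ih (n / 2) (by omega) (by omega) S1 hc1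
      obtain ⟨ψ, h4, h5, h6⟩ := ih (n - n / 2) (by omega) (by omega) (S \ S1) hc2
      refine ⟨.or (.and φ (.neg ψ)) (.and (.neg φ) ψ), ?_, ?_, fun x => ?_⟩
      · have e1 : (Fml.or (.and φ (.neg ψ)) (.and (.neg φ) ψ)).occ = 2 * (φ.occ + ψ.occ) := by
          simp only [Fml.occ, Fml.count]; ring
        rw [e1]
        rcases Nat.even_or_odd' n with ⟨m, hm | hm⟩
        · have e2 : n / 2 = m := by omega
          have e3 : n - n / 2 = m := by omega
          rw [e2] at h1
          rw [e3] at h4
          subst hm
          nlinarith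
        · have e2 : n / 2 = m := by omega
          have e3 : n - n / 2 = m + 1 := by omega
          rw [e2] at h1
          rw [e3] at h4
          subst hm
          nlinarith
      · intro a ha
        simp only [Fml.Occurs] at ha
        have k1 : φ.Occurs a → a ∈ S := fun h => hS1 (h2 a h)
        have k2 : ψ.Occurs a → a ∈ S := fun h => (Finset.mem_sdiff.1 (h5 a h)).1
        tauto
      · have hcard : (S.filter (fun i => x i = true)).card =
            (S1.filter (fun i => x i = true)).card +
              ((S \ S1).filter (fun i => x i = true)).card := by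
          rw [← Finset.card_union_of_disjoint, ← Finset.filter_union,
            Finset.union_sdiff_of_subset hS1]
          exact Finset.disjoint_filter_filter Finset.disjoint_sdiff
        simp only [Fml.eval, h3, h6]
        rw [hcard]
        set p := (S1.filter (fun i => x i = true)).card
        set q := ((S \ S1).filter (fun i => x i = true)).card
        rcases Nat.mod_two_eq_zero_or_one p with hp | hp <;>
          rcases Nat.mod_two_eq_zero_or_one q with hq | hq <;>
          simp [Nat.add_mod, hp, hq]

/-- T9: parity formulas of quadratic size. -/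
theorem exists_par {α : Type} [DecidableEq α] (S : Finset α) : ∃ φ : Fml α,
    φ.occ ≤ 4 * S.card ^ 2 ∧ (∀ a, φ.Occurs a → a ∈ S) ∧
    ∀ x, φ.eval x = decide ((S.filter (fun i => x i = true)).card % 2 = 1) := by
  rcases Nat.eq_zero_or_pos S.card with h | h
  · have hS : S = ∅ := Finset.card_eq_zero.1 h
    subst hS
    exact ⟨.fls, by simp [Fml.occ, Fml.count], fun a ha => by simp [Fml.Occurs] at ha,
      fun x => by simp [Fml.eval]⟩
  · obtain ⟨φ, h1, h2, h3⟩ := ef9_core S.card h S rfl
    refine ⟨φ, ?_, h2, h3⟩
    nlinarith [Nat.zero_le (S.card ^ 2)]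

end Pool.Agent.H564R2.EF
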