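import Pool.Agent.H564R2.EF.Defs
import Pool.Agent.H564R2.QF.ListBound
import Pool.Agent.H564R2.EF.Hits

/-!
# Random restrictions kill high degree
-/

namespace Pool.Agent.H564R2.EF

open Finset
open Pool.Agent.H564R2.QF (LowDeg chi)

/-- The Fourier coefficients. -/
noncomputable def fcoef {V : Type} [Fintype V] [DecidableEq V] (g : (V → Bool) → ℝ)
    (S : Finset V) : ℝ :=
  (∑ z : V → Bool, g z * chi S z) / 2 ^ Fintype.card V

lemma chi_dual {V : Type} [Fintype V] [DecidableEq V] (z w : V → Bool) :
    ∑ S : Finset V, chi S z * chi S w = if z = w then (2 : ℝ) ^ Fintype.card V else 0 := by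
  have h1 : ∀ S : Finset V, chi S z * chi S w = ∏ v ∈ S, (if z v = w v then (1 : ℝ) else -1) := by
    intro S
    unfold chi
    rw [← prod_mul_distrib]
    apply prod_congr rfl
    intro v _
    cases z v <;> cases w v <;> norm_num
  simp only [h1]
  have h2 : ∑ S : Finset V, ∏ v ∈ S, (if z v = w v then (1 : ℝ) else -1) =
      ∏ v : V, (1 + if z v = w v then (1 : ℝ) else -1) := by
    rw [Finset.prod_one_add, Finset.powerset_univ]
  rw [h2]
  split_ifs with h
  · subst h
    simp only [if_true]
    rw [prod_const, card_univ]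
    norm_num
  · have h3 : ∃ v, z v ≠ w v := by
      by_contra hcon
      push Not at hcon
      exact h (funext hcon)
    obtain ⟨v, hv⟩ := h3
    apply prod_eq_zero (mem_univ v)
    rw [if_neg hv]; norm_num

/-- Fourier inversion -/
lemma fcoef_inv {V : Type} [Fintype V] [DecidableEq V] (g : (V → Bool) → ℝ) (z : V → Bool) :
    g z = ∑ S : Finset V, fcoef g S * chi S z := by
  have hN : (2 : ℝ) ^ Fintype.card V ≠ 0 := by positivity
  have h1 : ∑ S : Finset V, fcoef g S * chi S z =
      (∑ w : V → Bool, g w * ∑ S : Finset V, chi S w * chi S z) / 2 ^ Fintype.card V := by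
    unfold fcoef
    rw [sum_congr rfl (fun S _ => div_mul_eq_mul_div _ _ _), ← sum_div]
    congr 1
    simp only [sum_mul, mul_sum]
    rw [sum_comm]
    exact sum_congr rfl fun w _ => sum_congr rfl fun S _ => by ring
  rw [h1]
  simp only [chi_dual]
  rw [sum_eq_single z]
  · rw [if_pos rfl]; field_simp
  · intro w _ hw
    rw [if_neg hw, mul_zero]
  · intro h; exact absurd (mem_univ _) h

/-- Parseval -/
lemma fcoef_sq {V : Type} [Fintype V] [DecidableEq V] (g : (V → Bool) → ℝ) :
    ∑ z : V → Bool, g z ^ 2 = 2 ^ Fintype.card V * ∑ S : Finset V, fcoef g S ^ 2 := by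
  rw [← QF.sum_sq]
  apply sum_congr rfl
  intro z _
  rw [← fcoef_inv]

/-- the weight above `d` -/
noncomputable def wt {V : Type} [Fintype V] [DecidableEq V] (d : ℕ) (g : (V → Bool) → ℝ) : ℝ :=
  ∑ S : Finset V, if d < S.card then fcoef g S ^ 2 else 0

lemma wt_nonneg {V : Type} [Fintype V] [DecidableEq V] (d : ℕ) (g : (V → Bool) → ℝ) :
    0 ≤ wt d g := by
  apply sum_nonneg
  intro S _
  split_ifs
  · exact sq_nonneg _
  · exact le_rfl

lemma fcoef_add {V : Type} [Fintype V] [DecidableEq V] (g h : (V → Bool) → ℝ) (S : Finset V) :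
    fcoef (fun z => g z + h z) S = fcoef g S + fcoef h S := by
  unfold fcoef
  rw [← add_div, ← sum_add_distrib]
  congr 1
  exact sum_congr rfl fun z _ => by ring

lemma wt_add {V : Type} [Fintype V] [DecidableEq V] (d : ℕ) (g h : (V → Bool) → ℝ) :
    wt d (fun z => g z + h z) ≤ 2 * wt d g + 2 * wt d h := by
  unfold wt
  rw [mul_sum, mul_sum, ← sum_add_distrib]
  apply sum_le_sum
  intro S _
  split_ifs
  · rw [fcoef_add]
    nlinarith [sq_nonneg (fcoef g S - fcoef h S)]
  · simp

lemma wt_le {V : Type} [Fintype V] [DecidableEq V] (d : ℕ) (g : (V → Bool) → ℝ) (ε : ℝ)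
    (hg : ∀ z, |g z| ≤ ε) : wt d g ≤ ε ^ 2 := by
  have h1 : wt d g ≤ ∑ S : Finset V, fcoef g S ^ 2 := by
    unfold wt
    apply sum_le_sum
    intro S _
    split_ifs
    · exact le_rfl
    · exact sq_nonneg _
  have h2 := fcoef_sq g
  have h3 : ∑ z : V → Bool, g z ^ 2 ≤ 2 ^ Fintype.card V * ε ^ 2 := by
    calc ∑ z : V → Bool, g z ^ 2 ≤ ∑ _z : V → Bool, ε ^ 2 := by
          apply sum_le_sum
          intro z _
          exact sq_le_sq' (abs_le.1 (hg z)).1 (abs_le.1 (hg z)).2
      _ = 2 ^ Fintype.card V * ε ^ 2 := by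
          rw [sum_const, nsmul_eq_mul]
          simp
  rw [h2] at h3
  exact h1.trans (le_of_mul_le_mul_left h3 (by positivity))

/-- granularity -/
lemma one_le_wt {V : Type} [Fintype V] [DecidableEq V] (d : ℕ) (g : (V → Bool) → Bool)
    (hg : (fun z => ind (g z)) ∉ LowDeg V d) :
    1 ≤ 4 ^ Fintype.card V * wt d (fun z => ind (g z)) := by
  have hex : ∃ S : Finset V, d < S.card ∧ fcoef (fun z => ind (g z)) S ≠ 0 := by
    by_contra hcon
    push Not at hcon
    apply hg
    have h1 : (fun z => ind (g z)) =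
        ∑ S : Finset V, fcoef (fun z => ind (g z)) S • chi S := by
      funext z
      rw [Finset.sum_apply]
      exact fcoef_inv (fun z => ind (g z)) z
    rw [h1]
    apply Submodule.sum_mem
    intro S _
    by_cases hS : d < S.card
    · rw [hcon S hS, zero_smul]; exact Submodule.zero_mem _
    · exact Submodule.smul_mem _ _ (QF.chi_mem S (not_lt.1 hS))
  obtain ⟨S, hS, hne⟩ := hex
  have hchi : ∀ z : V → Bool, ∃ a : ℤ, chi S z = a := by
    intro z
    refine ⟨∏ v ∈ S, if z v = true then -1 else 1, ?_⟩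
    unfold chi
    push_cast
    apply prod_congr rfl
    intro v _
    split_ifs <;> norm_num
  have hint : ∃ a : ℤ, ∑ z : V → Bool, ind (g z) * chi S z = a := by
    choose c hc using hchi
    refine ⟨∑ z : V → Bool, (if g z = true then c z else 0), ?_⟩
    push_cast
    apply sum_congr rfl
    intro z _
    unfold ind
    split_ifs
    · rw [hc z, one_mul]
    · simp
  obtain ⟨a, ha⟩ := hint
  have hfa : fcoef (fun z => ind (g z)) S = (a : ℝ) / 2 ^ Fintype.card V := by
    unfold fcoef
    rw [ha]
  have ha0 : a ≠ 0 := by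
    rintro rfl
    apply hne
    rw [hfa]; simp
  have ha1 : (1 : ℝ) ≤ (a : ℝ) ^ 2 := by
    have h1 : (1 : ℤ) ≤ a ^ 2 := by
      have := sq_nonneg a
      have h2 : a ^ 2 ≠ 0 := pow_ne_zero 2 ha0
      omega
    exact_mod_cast h1
  have h4 : (4 : ℝ) ^ Fintype.card V * fcoef (fun z => ind (g z)) S ^ 2 = (a : ℝ) ^ 2 := by
    rw [hfa, div_pow, ← pow_mul, mul_comm (Fintype.card V) 2, pow_mul]
    norm_num
    field_simp
  have h5 : fcoef (fun z => ind (g z)) S ^ 2 ≤ wt d (fun z => ind (g z)) := by
    unfold wt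
    have h6 : fcoef (fun z => ind (g z)) S ^ 2 =
        if d < S.card then fcoef (fun z => ind (g z)) S ^ 2 else 0 := by rw [if_pos hS]
    rw [h6]
    exact single_le_sum (f := fun S : Finset V => if d < S.card then
        fcoef (fun z => ind (g z)) S ^ 2 else 0)
      (fun T _ => by
        show 0 ≤ if d < T.card then fcoef (fun z => ind (g z)) T ^ 2 else 0
        split_ifs
        · exact sq_nonneg _
        · exact le_rfl) (mem_univ S)
  calc (1 : ℝ) ≤ (a : ℝ) ^ 2 := ha1
    _ = 4 ^ Fintype.card V * fcoef (fun z => ind (g z)) S ^ 2 := h4.symm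
    _ ≤ _ := mul_le_mul_of_nonneg_left h5 (by positivity)

/-- Parseval for families of characters -/
lemma sum_sq_family {V I : Type} [Fintype V] [DecidableEq V] [Fintype I]
    (φ : I → Finset V) (a : I → ℝ) (h : ∀ i j, a i ≠ 0 → a j ≠ 0 → φ i = φ j → i = j) :
    ∑ x : V → Bool, (∑ i, a i * chi (φ i) x) ^ 2 = 2 ^ Fintype.card V * ∑ i, a i ^ 2 := by
  classical
  have h1 : ∀ x : V → Bool, (∑ i, a i * chi (φ i) x) ^ 2 =
      ∑ i, ∑ j, a i * a j * chi (symmDiff (φ i) (φ j)) x := by
    intro x
    rw [sq, Finset.sum_mul_sum]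
    apply Finset.sum_congr rfl
    intro i _
    apply Finset.sum_congr rfl
    intro j _
    rw [← QF.chi_mul, Pi.mul_apply]
    ring
  simp only [h1]
  rw [Finset.sum_comm, Finset.mul_sum]
  apply Finset.sum_congr rfl
  intro i _
  rw [Finset.sum_comm]
  rw [Finset.sum_eq_single i]
  · simp only [symmDiff_self, Finset.bot_eq_empty, QF.chi_empty, mul_one, Finset.sum_const,
      nsmul_eq_mul, Finset.card_univ, Fintype.card_fun, Fintype.card_bool]
    push_cast
    ring
  · intro j _ hj
    rw [← Finset.mul_sum]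
    by_cases hi0 : a i = 0
    · rw [hi0]; simp
    by_cases hj0 : a j = 0
    · rw [hj0]; simp
    rw [QF.sum_chi, mul_zero]
    rw [Finset.nonempty_iff_ne_empty]
    intro h2
    exact hj (h i j hi0 hj0 (symmDiff_eq_bot.1 h2)).symm
  · intro h
    exact absurd (Finset.mem_univ _) h

/-- the blocks whose living variable belongs to `U` -/
def liv {E B : Type} [Fintype E] [DecidableEq E] [DecidableEq B] (σ : E → B)
    (U : Finset (E × B)) : Finset E := univ.filter (fun e => (e, σ e) ∈ U)

/-- the dead part of `U` -/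
def dead {E B : Type} [DecidableEq B] (σ : E → B) (U : Finset (E × B)) : Finset (E × B) :=
  U.filter (fun p => p.2 ≠ σ p.1)

lemma liv_dead {E B : Type} [Fintype E] [DecidableEq E] [DecidableEq B] (σ : E → B)
    (U U' : Finset (E × B)) (h1 : liv σ U = liv σ U') (h2 : dead σ U = dead σ U') : U = U' := by
  ext ⟨e, b⟩
  by_cases hb : b = σ e
  · have h3 := Finset.ext_iff.1 h1 e
    simp only [liv, mem_filter, mem_univ, true_and] at h3
    rw [hb]; exact h3
  · have h3 := Finset.ext_iff.1 h2 (e, b)
    simp only [dead, mem_filter, ne_eq, hb, not_false_eq_true, and_true] at h3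
    exact h3

lemma chi_rst {E B : Type} [Fintype E] [DecidableEq E] [DecidableEq B] (σ : E → B)
    (u : E × B → Bool) (z : E → Bool) (U : Finset (E × B)) :
    chi U (rst σ u z) = chi (dead σ U) u * chi (liv σ U) z := by
  have h1 : chi U (rst σ u z) = (∏ p ∈ U.filter (fun p => p.2 ≠ σ p.1),
      (if rst σ u z p = true then (-1 : ℝ) else 1)) * (∏ p ∈ U.filter (fun p => ¬ (p.2 ≠ σ p.1)),
      (if rst σ u z p = true then (-1 : ℝ) else 1)) := by
    unfold chi
    rw [prod_filter_mul_prod_filter_not]
  rw [h1]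
  congr 1
  · unfold chi dead
    apply prod_congr rfl
    intro p hp
    have h2 := (mem_filter.1 hp).2
    have h3 : rst σ u z p = u p := by unfold rst; rw [if_neg h2]
    rw [h3]
  · unfold chi
    symm
    apply prod_bij (fun e _ => (e, σ e))
    · intro e he
      simp only [liv, mem_filter, mem_univ, true_and] at he
      simp only [mem_filter, ne_eq, not_true_eq_false, not_false_eq_true, and_true]
      exact he
    · intro e _ e' _ h
      exact (Prod.mk.inj h).1
    · rintro ⟨e, b⟩ hp
      simp only [mem_filter, ne_eq, not_not] at hp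
      refine ⟨e, ?_, ?_⟩
      · simp only [liv, mem_filter, mem_univ, true_and]
        rw [← hp.2]; exact hp.1
      · rw [hp.2]
    · intro e _
      have h3 : rst σ u z (e, σ e) = z e := by unfold rst; rw [if_pos rfl]
      rw [h3]

lemma sum_chi_mul {V : Type} [Fintype V] [DecidableEq V] (S T : Finset V) :
    ∑ z : V → Bool, chi S z * chi T z = if S = T then (2 : ℝ) ^ Fintype.card V else 0 := by
  have h1 : ∀ z : V → Bool, chi S z * chi T z = chi (symmDiff S T) z := by
    intro z
    rw [← QF.chi_mul, Pi.mul_apply]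
  simp only [h1]
  split_ifs with h
  · subst h
    simp only [symmDiff_self, Finset.bot_eq_empty, QF.chi_empty, Finset.sum_const,
      nsmul_eq_mul, Finset.card_univ, Fintype.card_fun, Fintype.card_bool, mul_one]
    push_cast
    ring
  · apply QF.sum_chi
    rw [Finset.nonempty_iff_ne_empty]
    intro h2
    exact h (symmDiff_eq_bot.1 h2)

lemma fcoef_rst {E B : Type} [Fintype E] [DecidableEq E] [Fintype B] [DecidableEq B] (σ : E → B)
    (u : E × B → Bool) (c : Finset (E × B) → ℝ) (S : Finset E) :
    fcoef (fun z => ∑ U, c U * chi U (rst σ u z)) S =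
      ∑ U, (if liv σ U = S then c U else 0) * chi (dead σ U) u := by
  have hN : (2 : ℝ) ^ Fintype.card E ≠ 0 := by positivity
  unfold fcoef
  rw [div_eq_iff hN]
  simp only [sum_mul, chi_rst]
  rw [sum_comm]
  apply sum_congr rfl
  intro U _
  have h1 : ∀ z : E → Bool, c U * (chi (dead σ U) u * chi (liv σ U) z) * chi S z =
      (c U * chi (dead σ U) u) * (chi (liv σ U) z * chi S z) := by intro z; ring
  simp only [h1]
  rw [← mul_sum, sum_chi_mul]
  split_ifs <;> ring

/-- the average weight of a restriction -/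
lemma sum_wt {E B : Type} [Fintype E] [DecidableEq E] [Fintype B] [DecidableEq B] (σ : E → B)
    (c : Finset (E × B) → ℝ) (d : ℕ) :
    ∑ u : E × B → Bool, wt d (fun z => ∑ U, c U * chi U (rst σ u z)) =
      2 ^ Fintype.card (E × B) * ∑ U, (if d < (liv σ U).card then c U ^ 2 else 0) := by
  unfold wt
  rw [sum_comm]
  have h1 : ∀ S : Finset E, ∑ u : E × B → Bool, (if d < S.card then
      fcoef (fun z => ∑ U, c U * chi U (rst σ u z)) S ^ 2 else 0) =
      2 ^ Fintype.card (E × B) * ∑ U, (if liv σ U = S then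
        (if d < (liv σ U).card then c U ^ 2 else 0) else 0) := by
    intro S
    by_cases hS : d < S.card
    · simp only [if_pos hS, fcoef_rst]
      rw [sum_sq_family (fun U => dead σ U) (fun U => if liv σ U = S then c U else 0)]
      · congr 1
        apply sum_congr rfl
        intro U _
        by_cases hU : liv σ U = S
        · rw [if_pos hU, if_pos hU, hU, if_pos hS]
        · rw [if_neg hU, if_neg hU]; simp
      · intro U U' h2 h3 h4
        have h5 : liv σ U = S := by
          by_contra hcon
          exact h2 (if_neg hcon)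
        have h6 : liv σ U' = S := by
          by_contra hcon
          exact h3 (if_neg hcon)
        exact liv_dead σ U U' (h5.trans h6.symm) h4
    · simp only [if_neg hS, sum_const_zero]
      symm
      apply mul_eq_zero_of_right
      apply sum_eq_zero
      intro U _
      by_cases hU : liv σ U = S
      · rw [if_pos hU, hU, if_neg hS]
      · rw [if_neg hU]
  simp only [h1]
  rw [← mul_sum, sum_comm]
  congr 1
  apply sum_congr rfl
  intro U _
  simp

/-- T2: a Boolean function which is close to a function of low degree has low degree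
after most restrictions. -/
theorem shrink_one {E B : Type} [Fintype E] [DecidableEq E] [Fintype B] [DecidableEq B]
    (hB : 1 ≤ Fintype.card B) {D d : ℕ} (f : (E × B → Bool) → Bool) (P : (E × B → Bool) → ℝ)
    (hP : P ∈ LowDeg (E × B) D) (ε : ℝ) (hε0 : 0 ≤ ε) (hε1 : ε ≤ 1)
    (hf : ∀ x, |P x - ind (f x)| ≤ ε)
    (bad : Finset ((E → B) × (E × B → Bool)))
    (hbad : ∀ p ∈ bad, (fun z => ind (f (rst p.1 p.2 z))) ∉ LowDeg E d) :
    (bad.card : ℝ) ≤ 4 ^ (Fintype.card E) *
      (8 * (D.choose (d + 1) : ℝ) / (Fintype.card B : ℝ) ^ (d + 1) + 2 * ε ^ 2) *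
      ((Fintype.card B : ℝ) ^ (Fintype.card E) * 2 ^ (Fintype.card E * Fintype.card B)) := by
  classical
  obtain ⟨c, hc, hcP⟩ := QF.LowDeg.expand hP
  have hBpos : (0 : ℝ) < Fintype.card B := by exact_mod_cast hB
  -- total weight of `P`
  have hsum : ∑ U : Finset (E × B), c U ^ 2 ≤ 4 := by
    have e := QF.sum_sq c
    have hb : ∑ x : E × B → Bool, (∑ S, c S * chi S x) ^ 2 ≤ 2 ^ Fintype.card (E × B) * 4 := by
      calc ∑ x : E × B → Bool, (∑ S, c S * chi S x) ^ 2 ≤ ∑ _x : E × B → Bool, (4 : ℝ) := by
            apply Finset.sum_le_sum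
            intro x _
            rw [← hcP x]
            have h4 : |P x| ≤ 2 := by
              have h5 : |ind (f x)| ≤ 1 := by unfold ind; split_ifs <;> norm_num
              calc |P x| = |(P x - ind (f x)) + ind (f x)| := by ring_nf
                _ ≤ |P x - ind (f x)| + |ind (f x)| := abs_add_le _ _
                _ ≤ 1 + 1 := add_le_add ((hf x).trans hε1) h5
                _ = 2 := by norm_num
            have := sq_le_sq' (abs_le.1 h4).1 (abs_le.1 h4).2
            linarith
        _ = 2 ^ Fintype.card (E × B) * 4 := by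
            rw [Finset.sum_const, nsmul_eq_mul]
            simp
    rw [e] at hb
    exact le_of_mul_le_mul_left hb (by positivity)
  -- one restriction
  have hone : ∀ (σ : E → B) (u : E × B → Bool), wt d (fun z => ind (f (rst σ u z))) ≤
      2 * wt d (fun z => ∑ U, c U * chi U (rst σ u z)) + 2 * ε ^ 2 := by
    intro σ u
    have h1 : (fun z => ind (f (rst σ u z))) = (fun z => (∑ U, c U * chi U (rst σ u z)) +
        (ind (f (rst σ u z)) - P (rst σ u z))) := by
      funext z
      rw [← hcP]; ring
    rw [h1]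
    refine (wt_add d (fun z => ∑ U, c U * chi U (rst σ u z))
      (fun z => ind (f (rst σ u z)) - P (rst σ u z))).trans ?_
    have h2 := wt_le d (fun z => ind (f (rst σ u z)) - P (rst σ u z)) ε (fun z => by
      rw [abs_sub_comm]; exact hf _)
    linarith
  -- the number of restrictions with many hits
  have hhits : ∀ U : Finset (E × B), ∑ σ : E → B, (if d < (liv σ U).card then c U ^ 2 else 0) ≤
      (D.choose (d + 1) * (Fintype.card B : ℝ) ^ Fintype.card E / (Fintype.card B : ℝ) ^ (d + 1)) *
        c U ^ 2 := by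
    intro U
    by_cases hU : D < U.card
    · rw [hc U hU]; simp
    · have h1 := hits U D (d + 1) (not_lt.1 hU)
      rw [← sum_filter, sum_const, nsmul_eq_mul]
      apply mul_le_mul_of_nonneg_right _ (sq_nonneg _)
      rw [le_div_iff₀ (by positivity)]
      exact h1
  have htot : ∑ σ : E → B, ∑ u : E × B → Bool,
      wt d (fun z => ∑ U, c U * chi U (rst σ u z)) ≤ 2 ^ Fintype.card (E × B) *
        ((D.choose (d + 1) * (Fintype.card B : ℝ) ^ Fintype.card E /
          (Fintype.card B : ℝ) ^ (d + 1)) * 4) := by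
    simp only [sum_wt]
    rw [← mul_sum]
    apply mul_le_mul_of_nonneg_left _ (by positivity)
    rw [sum_comm]
    calc ∑ U : Finset (E × B), ∑ σ : E → B, (if d < (liv σ U).card then c U ^ 2 else 0)
        ≤ ∑ U : Finset (E × B), (D.choose (d + 1) * (Fintype.card B : ℝ) ^ Fintype.card E /
          (Fintype.card B : ℝ) ^ (d + 1)) * c U ^ 2 := sum_le_sum fun U _ => hhits U
      _ = (D.choose (d + 1) * (Fintype.card B : ℝ) ^ Fintype.card E /
          (Fintype.card B : ℝ) ^ (d + 1)) * ∑ U : Finset (E × B), c U ^ 2 := by rw [mul_sum]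
      _ ≤ _ := mul_le_mul_of_nonneg_left hsum (by positivity)
  have hall : ∑ p : (E → B) × (E × B → Bool), wt d (fun z => ind (f (rst p.1 p.2 z))) ≤
      2 * (2 ^ Fintype.card (E × B) *
        ((D.choose (d + 1) * (Fintype.card B : ℝ) ^ Fintype.card E /
          (Fintype.card B : ℝ) ^ (d + 1)) * 4)) +
      (Fintype.card B : ℝ) ^ Fintype.card E * 2 ^ Fintype.card (E × B) * (2 * ε ^ 2) := by
    rw [Fintype.sum_prod_type]
    calc ∑ σ : E → B, ∑ u : E × B → Bool, wt d (fun z => ind (f (rst σ u z)))
        ≤ ∑ σ : E → B, ∑ u : E × B → Bool,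
          (2 * wt d (fun z => ∑ U, c U * chi U (rst σ u z)) + 2 * ε ^ 2) :=
          sum_le_sum fun σ _ => sum_le_sum fun u _ => hone σ u
      _ = 2 * (∑ σ : E → B, ∑ u : E × B → Bool,
          wt d (fun z => ∑ U, c U * chi U (rst σ u z))) +
          (Fintype.card B : ℝ) ^ Fintype.card E * 2 ^ Fintype.card (E × B) * (2 * ε ^ 2) := by
          simp only [sum_add_distrib, ← mul_sum, sum_const, nsmul_eq_mul, card_univ,
            Fintype.card_fun, Fintype.card_bool]
          push_cast
          ring
      _ ≤ _ := by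
          have := mul_le_mul_of_nonneg_left htot (by norm_num : (0 : ℝ) ≤ 2)
          linarith
  calc (bad.card : ℝ) = ∑ _p ∈ bad, (1 : ℝ) := by simp
    _ ≤ ∑ p ∈ bad, 4 ^ Fintype.card E * wt d (fun z => ind (f (rst p.1 p.2 z))) :=
        sum_le_sum fun p hp => one_le_wt d (fun z => f (rst p.1 p.2 z)) (hbad p hp)
    _ ≤ ∑ p : (E → B) × (E × B → Bool),
          4 ^ Fintype.card E * wt d (fun z => ind (f (rst p.1 p.2 z))) :=
        sum_le_sum_of_subset_of_nonneg (subset_univ _)
          (fun p _ _ => mul_nonneg (by positivity) (wt_nonneg _ _))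
    _ = 4 ^ Fintype.card E *
          ∑ p : (E → B) × (E × B → Bool), wt d (fun z => ind (f (rst p.1 p.2 z))) := by
        rw [mul_sum]
    _ ≤ _ := mul_le_mul_of_nonneg_left hall (by positivity)
    _ = _ := by
        rw [Fintype.card_prod]
        ring

end Pool.Agent.H564R2.EF
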