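import Pool.Agent.H564R2.EF.Exact
import Pool.Agent.H564R2.QF.Approx

/-! Sums of `2 ^ e` formulas. -/

namespace Pool.Agent.H564R2.EF

open Finset
open Pool.Agent.H564R2.QF (LowDeg chi)

/-- T6 (uses T5 and `QF.formula_approx`): sums of `2 ^ e` formulas. -/
theorem sum_approx {V : Type} (e s D k T : ℕ) (F : (Fin e → Bool) → QF.Fml V)
    (hF : ∀ a, (F a).size ≤ s) (ε : ℝ) (hε : 0 ≤ ε)
    (h : s ≤ D ∨ (1 ≤ k ∧ 1 ≤ T ∧ s ≤ k * T ^ 2 ∧ 12780 * k * T ≤ D ∧
      (2 : ℝ) ^ e * (1 / 4) ^ k ≤ ε)) :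
    ∃ P ∈ LowDeg V D, ∀ x, |P x - ∑ a, ind ((F a).eval x)| ≤ ε := by
  rcases h with h | ⟨hk, hT, hs, hD, he⟩
  · refine ⟨∑ a, fun x => ind ((F a).eval x), ?_, ?_⟩
    · apply Submodule.sum_mem
      intro a _
      exact LowDeg.of_le (exact_degree (F a)) ((hF a).trans h)
    · intro x
      rw [Finset.sum_apply, sub_self, abs_zero]
      exact hε
  · have h1 : ∀ a, ∃ P ∈ LowDeg V (12780 * k * T), ∀ z,
        |P z - (if (F a).eval z = true then 1 else 0)| ≤ (1 / 4) ^ k := fun a =>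
      QF.formula_approx (F a) k T hk hT ((hF a).trans hs)
    choose P hP hPx using h1
    refine ⟨∑ a, P a, ?_, ?_⟩
    · apply Submodule.sum_mem
      intro a _
      exact LowDeg.of_le (hP a) hD
    · intro x
      rw [Finset.sum_apply, ← Finset.sum_sub_distrib]
      refine (Finset.abs_sum_le_sum_abs _ _).trans (le_trans ?_ he)
      calc ∑ a, |P a x - ind ((F a).eval x)| ≤ ∑ _a : Fin e → Bool, (1 / 4 : ℝ) ^ k :=
            Finset.sum_le_sum fun a _ => hPx a x
        _ = (2 : ℝ) ^ e * (1 / 4) ^ k := by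
            rw [Finset.sum_const, nsmul_eq_mul]
            congr 1
            simp

end Pool.Agent.H564R2.EF
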