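import Pool.Agent.H564R2.EF.Defs
import Pool.Agent.Helper600R2.Lift

/-! From characters to juntas over the reals. -/

namespace Pool.Agent.H564R2.EF

open Finset
open Pool.Agent.H564R2.QF (LowDeg chi)

/-- T4: from characters to juntas over the reals. -/
theorem to_J {E B : Type} [Fintype E] [DecidableEq E] [Fintype B] [DecidableEq B]
    (f : (E × B → Bool) → Bool) (σ : E → B) (u : E × B → Bool) (d : ℕ)
    (h : (fun z => ind (f (rst σ u z))) ∈ LowDeg E d) :
    Helper600R2.toK ℝ (fun y => f (Helper600R2.merge (fun p => (decide (p.2 = σ p.1), u p)) y)) ∈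
      Helper600R2.J (ι := E × B) (α := Bool) ℝ d := by
  have key : ∀ g : (E → Bool) → ℝ, g ∈ LowDeg E d →
      (fun y : E × B → Bool => g (fun e => y (e, σ e))) ∈
        Helper600R2.J (ι := E × B) (α := Bool) ℝ d := by
    intro g hg
    induction hg using Submodule.span_induction with
    | mem g hg =>
      obtain ⟨S, hS, rfl⟩ := hg
      refine Helper600R2.junta_mem (S.image fun e => (e, σ e)) (Finset.card_image_le.trans hS) ?_
      intro x y hxy
      simp only [chi]
      apply Finset.prod_congr rfl
      intro e he
      have hx : x (e, σ e) = y (e, σ e) := hxy (e, σ e) (by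
        rw [Finset.mem_coe]
        exact Finset.mem_image_of_mem _ he)
      simp only [hx]
    | zero => exact Submodule.zero_mem _
    | add g g' _ _ ih ih' => exact Submodule.add_mem _ ih ih'
    | smul a g _ ih => exact Submodule.smul_mem _ a ih
  have h1 := key _ h
  have h2 : (fun y : E × B → Bool => ind (f (rst σ u fun e => y (e, σ e)))) =
      Helper600R2.toK ℝ (fun y => f (Helper600R2.merge
        (fun p => (decide (p.2 = σ p.1), u p)) y)) := by
    funext y
    have h3 : rst σ u (fun e => y (e, σ e)) =
        Helper600R2.merge (fun p => (decide (p.2 = σ p.1), u p)) y := by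
      funext p
      obtain ⟨e, b⟩ := p
      simp only [rst, Helper600R2.merge]
      by_cases hb : b = σ e
      · subst hb
        simp
      · simp [hb]
    rw [h3]
    rfl
  rw [← h2]
  exact h1

end Pool.Agent.H564R2.EF
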