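import Pool.Agent.H564R2.EF.Par

/-!
# Refutations with `q` extension variables for every block
-/

set_option linter.unusedSectionVars false

namespace Pool.Agent.H564R2.EF

open Finset

namespace Upper

section par

variable {α : Type} [DecidableEq α]

/-- parity of the variables in `S` -/
def par (S : Finset α) (x : α → Bool) : Bool :=
  decide ((S.filter (fun i => x i = true)).card % 2 = 1)

theorem par_symmDiff (S T : Finset α) (x : α → Bool) :
    par (symmDiff S T) x = xor (par S x) (par T x) := by
  unfold par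
  have h1 : (symmDiff S T).filter (fun i => x i = true) =
      symmDiff (S.filter (fun i => x i = true)) (T.filter (fun i => x i = true)) := by
    ext a
    simp only [Finset.mem_filter, Finset.mem_symmDiff]
    tauto
  rw [h1]
  generalize S.filter (fun i => x i = true) = A
  generalize T.filter (fun i => x i = true) = B
  have h2 : (symmDiff A B).card + 2 * (A ∩ B).card = A.card + B.card := by
    have e1 : (symmDiff A B).card = (A \ B).card + (B \ A).card := by
      rw [symmDiff_def]
      exact Finset.card_union_of_disjoint disjoint_sdiff_sdiff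
    have e2 := Finset.card_sdiff_add_card_inter A B
    have e3 := Finset.card_sdiff_add_card_inter B A
    rw [Finset.inter_comm B A] at e3
    omega
  by_cases hA : A.card % 2 = 1 <;> by_cases hB : B.card % 2 = 1 <;>
    simp only [hA, hB, decide_true, decide_false, Bool.xor_true, Bool.xor_false, Bool.not_true,
      Bool.not_false, decide_eq_true_eq, decide_eq_false_iff_not] <;> omega

/-- the formula `parity of S = b` -/
noncomputable def Hf (S : Finset α) (b : Bool) : Fml α :=
  if b = true then (exists_par S).choose else .neg (exists_par S).choose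

theorem Hf_occ (S : Finset α) (b : Bool) : (Hf S b).occ ≤ 4 * S.card ^ 2 := by
  unfold Hf
  have := (exists_par S).choose_spec.1
  split_ifs
  · exact this
  · exact this

theorem Hf_occurs (S : Finset α) (b : Bool) (a : α) (h : (Hf S b).Occurs a) : a ∈ S := by
  unfold Hf at h
  have := (exists_par S).choose_spec.2.1
  split_ifs at h
  · exact this a h
  · exact this a h

theorem Hf_eval (S : Finset α) (b : Bool) (x : α → Bool) :
    (Hf S b).eval x = true ↔ par S x = b := by
  unfold Hf
  have h := (exists_par S).choose_spec.2.2 x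
  have h' : (exists_par S).choose.eval x = par S x := h
  split_ifs with hb
  · rw [h', hb]
  · simp only [Fml.eval]
    rw [h']
    rw [Bool.not_eq_true] at hb
    rw [hb]
    simp

end par

section der

variable {N n ext : ℕ} (S : Fin n → Finset (Fin N)) (b : Fin n → Bool)
  (dfn : Fin ext → Fml (Fin N ⊕ Fin ext))

/-- a line follows from the axioms or from two lines of the list -/
def Snd (l : List (Fml (Fin N ⊕ Fin ext))) (φ : Fml (Fin N ⊕ Fin ext)) : Prop :=
  (∃ v, ∀ x, XorHolds (S v) (b v) (fun a => x (Sum.inl a)) → φ.eval x = true) ∨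
  (∃ j, ∀ x, x (Sum.inr j) = (dfn j).eval x → φ.eval x = true) ∨
  (∃ P : List (Fml (Fin N ⊕ Fin ext)), P.length ≤ 2 ∧ (∀ ψ ∈ P, ψ ∈ l) ∧
    ∀ x, (∀ ψ ∈ P, ψ.eval x = true) → φ.eval x = true)

/-- derivations, latest line first -/
def Drv : List (Fml (Fin N ⊕ Fin ext)) → Prop
  | [] => True
  | φ :: l => Snd S b dfn l φ ∧ Drv l

variable {S b dfn}

theorem Drv.get {l : List (Fml (Fin N ⊕ Fin ext))} (h : Drv S b dfn l) (p : ℕ)
    (hp : p < l.length) : Snd S b dfn (l.drop (p + 1)) l[p] := by
  induction l generalizing p with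
  | nil => simp at hp
  | cons φ l ih =>
    cases p with
    | zero => simpa using h.1
    | succ p =>
      have := ih h.2 p (by simpa using hp)
      simpa using this

/-- from a derivation to a refutation -/
theorem toRef {l : List (Fml (Fin N ⊕ Fin ext))} (h : Drv S b dfn l)
    (hlt : ∀ i j, (dfn i).Occurs (Sum.inr j) → j < i)
    (hc : ∃ φ ∈ l, ∀ x, φ.eval x = false) {k : ℕ} (hk : 2 ≤ k) :
    ∃ R : ExtRef S b k, R.ext = ext ∧ (∑ i, (R.dfn i).occ = ∑ i, (dfn i).occ) ∧
      (∀ M, (∀ φ ∈ l, φ.occ ≤ M) → ∀ i, (R.line i).occ ≤ M) ∧ R.len = l.length ∧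
      (∀ M, (∀ i, (dfn i).occ ≤ M) → ∀ i, (R.dfn i).occ ≤ M) := by
  classical
  have hidx : ∀ i : Fin l.length, l.length - 1 - i.val < l.length := fun i => by
    have := i.2
    omega
  refine ⟨{ ext := ext
            dfn := dfn
            dfn_lt := hlt
            len := l.length
            line := fun i => l[l.length - 1 - i.val]'(hidx i)
            contra := ?_
            sound := ?_ }, rfl, rfl, ?_, rfl, fun M hM i => hM i⟩
  · obtain ⟨φ, hφ, hφ'⟩ := hc
    obtain ⟨p, hp, rfl⟩ := List.mem_iff_getElem.1 hφ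
    refine ⟨⟨l.length - 1 - p, by omega⟩, fun x => ?_⟩
    have e : l.length - 1 - (l.length - 1 - p) = p := by omega
    simp only [e]
    exact hφ' x
  · intro i
    have h1 := h.get (l.length - 1 - i.val) (hidx i)
    rcases h1 with h1 | h1 | ⟨P, hP1, hP2, hP3⟩
    · exact Or.inl h1
    · exact Or.inr (Or.inl h1)
    · right; right
      have h2 : ∀ ψ ∈ P, ∃ j : Fin l.length, j < i ∧
          l[l.length - 1 - j.val]'(hidx j) = ψ := by
        intro ψ hψ
        obtain ⟨p, hp, hp'⟩ := List.mem_iff_getElem.1 (hP2 ψ hψ)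
        rw [List.length_drop] at hp
        have hi := i.2
        refine ⟨⟨i.val - 1 - p, by omega⟩, ?_, ?_⟩
        · rw [Fin.lt_def]
          simp only
          omega
        · rw [List.getElem_drop] at hp'
          have e : l.length - 1 - (i.val - 1 - p) = l.length - 1 - i.val + 1 + p := by omega
          simp only [e]
          exact hp'
      have : Nonempty (Fin l.length) := ⟨i⟩
      choose! f hf1 hf2 using h2
      refine ⟨(P.map f).toFinset, ?_, ?_, ?_⟩
      · refine (List.toFinset_card_le _).trans ?_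
        rw [List.length_map]
        exact hP1.trans hk
      · intro j hj
        rw [List.mem_toFinset, List.mem_map] at hj
        obtain ⟨ψ, hψ, rfl⟩ := hj
        exact hf1 ψ hψ
      · intro x hx
        refine hP3 x fun ψ hψ => ?_
        have := hx (f ψ) (by
          rw [List.mem_toFinset, List.mem_map]
          exact ⟨ψ, hψ, rfl⟩)
        rw [hf2 ψ hψ] at this
        exact this
  · intro M hM i
    exact hM _ (List.getElem_mem _)

theorem Drv.append_axioms {l l' : List (Fml (Fin N ⊕ Fin ext))} (h : Drv S b dfn l)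
    (h' : ∀ φ ∈ l', ∃ j, ∀ x, x (Sum.inr j) = (dfn j).eval x → φ.eval x = true) :
    Drv S b dfn (l' ++ l) := by
  induction l' with
  | nil => exact h
  | cons φ l' ih =>
    exact ⟨Or.inr (Or.inl (h' φ List.mem_cons_self)),
      ih fun ψ hψ => h' ψ (List.mem_cons_of_mem _ hψ)⟩

end der

section sets

variable {E B : Type} [Fintype E] [DecidableEq E] [Fintype B] [DecidableEq B] {n N q ext : ℕ}
  (star : Fin n → Finset E) (eq : E × B ≃ Fin N) (ix : E × Fin q ≃ Fin ext) (ch : B → ℕ)

open Classical in
/-- the variables of the constraint `v`, when `c e` chunks of the block `e` are processed -/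
noncomputable def VS (v : Fin n) (c : E → ℕ) : Finset (Fin N ⊕ Fin ext) :=
  univ.filter fun a => match a with
    | Sum.inl a => (eq.symm a).1 ∈ star v ∧ c (eq.symm a).1 ≤ ch (eq.symm a).2
    | Sum.inr z => (ix.symm z).1 ∈ star v ∧ c (ix.symm z).1 = (ix.symm z).2.val + 1

open Classical in
/-- the variables in the definition of the extension variable `(e, k)` -/
noncomputable def DS (e : E) (k : ℕ) : Finset (Fin N ⊕ Fin ext) :=
  univ.filter fun a => match a with
    | Sum.inl a => (eq.symm a).1 = e ∧ ch (eq.symm a).2 = k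
    | Sum.inr z => (ix.symm z).1 = e ∧ (ix.symm z).2.val + 1 = k

open Classical in
/-- the variables in the extension axiom `(e, k)` -/
noncomputable def WS (e : E) (k : ℕ) : Finset (Fin N ⊕ Fin ext) :=
  univ.filter fun a => match a with
    | Sum.inl a => (eq.symm a).1 = e ∧ ch (eq.symm a).2 = k
    | Sum.inr z => (ix.symm z).1 = e ∧ ((ix.symm z).2.val + 1 = k ∨ (ix.symm z).2.val = k)

theorem VS_update (v : Fin n) (c : E → ℕ) {e : E} (he : e ∈ star v) {k : ℕ} (hk : c e = k) :
    VS star eq ix ch v (Function.update c e (k + 1)) =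
      symmDiff (VS star eq ix ch v c) (WS eq ix ch e k) := by
  ext a
  rcases a with a | z
  · obtain ⟨⟨e', i⟩, rfl⟩ := eq.surjective a
    simp only [VS, WS, Finset.mem_filter, Finset.mem_symmDiff, Finset.mem_univ, true_and,
      Equiv.symm_apply_apply]
    by_cases h : e' = e
    · subst h
      rw [Function.update_self, hk]
      simp only [he, true_and]
      omega
    · rw [Function.update_of_ne h]
      simp only [h, false_and, not_false_eq_true, and_true, or_false]
  · obtain ⟨⟨e', j⟩, rfl⟩ := ix.surjective z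
    simp only [VS, WS, Finset.mem_filter, Finset.mem_symmDiff, Finset.mem_univ, true_and,
      Equiv.symm_apply_apply]
    by_cases h : e' = e
    · subst h
      rw [Function.update_self, hk]
      simp only [he, true_and]
      omega
    · rw [Function.update_of_ne h]
      simp only [h, false_and, not_false_eq_true, and_true, or_false]

theorem WS_eq (e : E) (k : Fin q) :
    WS eq ix ch e k = symmDiff (DS eq ix ch e k) {Sum.inr (ix (e, k))} := by
  ext a
  rcases a with a | z
  · simp only [DS, WS, Finset.mem_filter, Finset.mem_symmDiff, Finset.mem_univ, true_and,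
      Finset.mem_singleton, reduceCtorEq, not_false_eq_true, and_true, false_and, or_false]
  · obtain ⟨⟨e', j⟩, rfl⟩ := ix.surjective z
    simp only [DS, WS, Finset.mem_filter, Finset.mem_symmDiff, Finset.mem_univ, true_and,
      Equiv.symm_apply_apply, Finset.mem_singleton, Sum.inr.injEq, EmbeddingLike.apply_eq_iff_eq,
      Prod.mk.injEq, Fin.ext_iff]
    by_cases h : e' = e
    · simp only [h, true_and]
      omega
    · simp only [h, false_and, not_false_eq_true, and_true, or_false]

theorem DS_lt {e : E} {k : ℕ} {z : Fin ext} (h : Sum.inr z ∈ DS eq ix ch e k) :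
    (ix.symm z).1 = e ∧ (ix.symm z).2.val + 1 = k := by
  simp only [DS, Finset.mem_filter, Finset.mem_univ, true_and] at h
  exact h

theorem VS_zero (v : Fin n) (x : Fin N ⊕ Fin ext → Bool) (b : Bool)
    (h : XorHolds (((star v) ×ˢ (univ : Finset B)).map eq.toEmbedding) b
      (fun a => x (Sum.inl a))) :
    par (VS star eq ix ch v (fun _ => 0)) x = b := by
  have h1 : (VS star eq ix ch v (fun _ => 0)).filter (fun i => x i = true) =
      ((((star v) ×ˢ (univ : Finset B)).map eq.toEmbedding).filter
        (fun a => x (Sum.inl a) = true)).map Function.Embedding.inl := by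
    ext a
    rcases a with a | z
    · obtain ⟨⟨e', i⟩, rfl⟩ := eq.surjective a
      simp [VS]
    · simp [VS]
  unfold par
  rw [h1, Finset.card_map]
  unfold XorHolds at h
  by_cases hb : b = true
  · rw [hb]
    exact decide_eq_true (h.2 hb)
  · rw [Bool.not_eq_true] at hb
    rw [hb]
    refine decide_eq_false fun h2 => ?_
    rw [h.1 h2] at hb
    exact absurd hb (by simp)

/-- the final set -/
theorem VS_final (hq : 1 ≤ q) (hch : ∀ i, ch i < q) (v : Fin n) :
    VS star eq ix ch v (fun e => if e ∈ star v then q else 0) =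
      (star v).image (fun e => Sum.inr (ix (e, ⟨q - 1, by omega⟩))) := by
  ext a
  rcases a with a | z
  · obtain ⟨⟨e', i⟩, rfl⟩ := eq.surjective a
    simp only [VS, Finset.mem_filter, Finset.mem_univ, true_and, Equiv.symm_apply_apply,
      Finset.mem_image, reduceCtorEq, and_false, exists_false, iff_false]
    rintro ⟨h1, h2⟩
    rw [if_pos h1] at h2
    have := hch i
    omega
  · obtain ⟨⟨e', j⟩, rfl⟩ := ix.surjective z
    simp only [VS, Finset.mem_filter, Finset.mem_univ, true_and, Equiv.symm_apply_apply,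
      Finset.mem_image, Sum.inr.injEq, EmbeddingLike.apply_eq_iff_eq, Prod.mk.injEq, Fin.ext_iff]
    constructor
    · rintro ⟨h1, h2⟩
      rw [if_pos h1] at h2
      exact ⟨e', h1, rfl, by omega⟩
    · rintro ⟨e, h1, rfl, h3⟩
      refine ⟨h1, ?_⟩
      rw [if_pos h1]
      omega

theorem final_xor (hq : 1 ≤ q) (hch : ∀ i, ch i < q) (v : Fin n) (x : Fin N ⊕ Fin ext → Bool)
    (b : Bool) (h : par (VS star eq ix ch v (fun e => if e ∈ star v then q else 0)) x = b) :
    XorHolds (star v) b (fun e => x (Sum.inr (ix (e, ⟨q - 1, by omega⟩)))) := by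
  rw [VS_final star eq ix ch hq hch v] at h
  unfold par at h
  unfold XorHolds
  have h1 : (((star v).image (fun e => (Sum.inr (ix (e, ⟨q - 1, by omega⟩)) :
      Fin N ⊕ Fin ext))).filter (fun i => x i = true)).card =
      ((star v).filter (fun e => x (Sum.inr (ix (e, ⟨q - 1, by omega⟩))) = true)).card := by
    rw [Finset.filter_image, Finset.card_image_of_injective]
    intro e e' h
    have := ix.injective (Sum.inr_injective h)
    exact congrArg Prod.fst this
  rw [h1] at h
  rw [← h]
  exact (decide_eq_true_iff).symm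

theorem VS_card (v : Fin n) (c : E → ℕ) :
    (VS star eq ix ch v c).card ≤ (star v).card * (Fintype.card B + 1) := by
  have h1 : (VS star eq ix ch v c).card ≤ ((star v) ×ˢ (univ : Finset (Option B))).card := by
    refine Finset.card_le_card_of_injOn (fun a => match a with
      | Sum.inl a => ((eq.symm a).1, some (eq.symm a).2)
      | Sum.inr z => ((ix.symm z).1, none)) ?_ ?_
    · rintro (a | z) ha
      · simp only [VS, Finset.coe_filter, Finset.mem_univ, true_and, Set.mem_ofPred_eq] at ha
        simp only [Finset.coe_product, Set.mem_prod, Finset.mem_coe, Finset.mem_univ, and_true]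
        exact ha.1
      · simp only [VS, Finset.coe_filter, Finset.mem_univ, true_and, Set.mem_ofPred_eq] at ha
        simp only [Finset.coe_product, Set.mem_prod, Finset.mem_coe, Finset.mem_univ, and_true]
        exact ha.1
    · rintro (a | z) ha (a' | z') ha' h
      · simp only [Prod.mk.injEq, Option.some.injEq] at h
        have : eq.symm a = eq.symm a' := Prod.ext h.1 h.2
        rw [eq.symm.injective this]
      · simp at h
      · simp at h
      · simp only [VS, Finset.coe_filter, Finset.mem_univ, true_and, Set.mem_ofPred_eq] at ha ha'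
        simp only [Prod.mk.injEq, and_true] at h
        have h2 := ha.2
        rw [h, ha'.2] at h2
        have : ix.symm z = ix.symm z' := Prod.ext h (Fin.ext (by omega))
        rw [ix.symm.injective this]
  rw [Finset.card_product, Finset.card_univ, Fintype.card_option] at h1
  exact h1

theorem DS_card (e : E) (k : ℕ) {r : ℕ} (hr : (univ.filter (fun i => ch i = k)).card ≤ r) :
    (DS eq ix ch e k).card ≤ r + 1 := by
  have h1 : (DS eq ix ch e k).card ≤
      (insert none ((univ.filter (fun i => ch i = k)).image some)).card := by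
    refine Finset.card_le_card_of_injOn (fun a => match a with
      | Sum.inl a => some (eq.symm a).2
      | Sum.inr z => none) ?_ ?_
    · rintro (a | z) ha
      · simp only [DS, Finset.coe_filter, Finset.mem_univ, true_and, Set.mem_ofPred_eq] at ha
        simp only [Finset.coe_insert, Finset.coe_image, Finset.coe_filter, Finset.mem_univ,
          true_and]
        right
        exact ⟨_, ha.2, rfl⟩
      · simp
    · rintro (a | z) ha (a' | z') ha' h
      · simp only [DS, Finset.coe_filter, Finset.mem_univ, true_and, Set.mem_ofPred_eq] at ha ha'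
        simp only [Option.some.injEq] at h
        have : eq.symm a = eq.symm a' := Prod.ext (ha.1.trans ha'.1.symm) h
        rw [eq.symm.injective this]
      · simp at h
      · simp at h
      · simp only [DS, Finset.coe_filter, Finset.mem_univ, true_and, Set.mem_ofPred_eq] at ha ha'
        have : ix.symm z = ix.symm z' := Prod.ext (ha.1.trans ha'.1.symm) (Fin.ext (by omega))
        rw [ix.symm.injective this]
  refine h1.trans ((Finset.card_insert_le _ _).trans ?_)
  have := Finset.card_image_le (s := univ.filter (fun i => ch i = k)) (f := some)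
  omega

theorem WS_card (e : E) (k : Fin q) {r : ℕ}
    (hr : (univ.filter (fun i => ch i = k.val)).card ≤ r) : (WS eq ix ch e k).card ≤ r + 2 := by
  rw [WS_eq]
  have h1 := DS_card eq ix ch e k.val hr
  have h2 : (symmDiff (DS eq ix ch e k) {Sum.inr (ix (e, k))}).card ≤
      (DS eq ix ch e k).card + 1 := by
    refine (Finset.card_le_card (fun a ha => ?_)).trans (Finset.card_insert_le
      (Sum.inr (ix (e, k))) (DS eq ix ch e k))
    rw [Finset.mem_symmDiff, Finset.mem_singleton] at ha
    rw [Finset.mem_insert]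
    tauto
  omega

end sets

section build

variable {E B : Type} [Fintype E] [DecidableEq E] [Fintype B] [DecidableEq B] {n N q ext : ℕ}
  (star : Fin n → Finset E) (b : Fin n → Bool) (eq : E × B ≃ Fin N) (ix : E × Fin q ≃ Fin ext)
  (ch : B → ℕ)

/-- the definitions of the extension variables -/
noncomputable def dfnU (i : Fin ext) : Fml (Fin N ⊕ Fin ext) :=
  Hf (DS eq ix ch (ix.symm i).1 (ix.symm i).2.val) true

/-- the constraints -/
abbrev SU (v : Fin n) : Finset (Fin N) := ((star v) ×ˢ (univ : Finset B)).map eq.toEmbedding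

/-- derivations with short lines -/
def Gd (M : ℕ) (l : List (Fml (Fin N ⊕ Fin ext))) : Prop :=
  Drv (SU star eq) b (dfnU eq ix ch) l ∧ ∀ φ ∈ l, φ.occ ≤ M

variable {star b eq ix ch}

theorem Gd.cons {M : ℕ} {l : List (Fml (Fin N ⊕ Fin ext))} (h : Gd star b eq ix ch M l)
    {φ : Fml (Fin N ⊕ Fin ext)} (h1 : Snd (SU star eq) b (dfnU eq ix ch) l φ)
    (h2 : φ.occ ≤ M) : Gd star b eq ix ch M (φ :: l) := by
  refine ⟨⟨h1, h.1⟩, fun ψ hψ => ?_⟩
  rcases List.mem_cons.1 hψ with rfl | h3
  · exact h2
  · exact h.2 ψ h3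

theorem stepB {M m : ℕ} (hB : Fintype.card B = m) (hstar : ∀ v, (star v).card ≤ 4)
    (hM : 4 * (4 * (m + 1)) ^ 2 ≤ M) {v : Fin n} {e : E} (he : e ∈ star v) {c : E → ℕ}
    (hc : c e = 0) {l : List (Fml (Fin N ⊕ Fin ext))} (hl : Gd star b eq ix ch M l)
    (hX : ∀ e (k : Fin q), Hf (WS eq ix ch e k) false ∈ l)
    (hH : Hf (VS star eq ix ch v c) (b v) ∈ l) (k : ℕ) (hk : k ≤ q) :
    ∃ l', Gd star b eq ix ch M (l' ++ l) ∧ l'.length ≤ k ∧
      Hf (VS star eq ix ch v (Function.update c e k)) (b v) ∈ l' ++ l := by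
  induction k with
  | zero =>
    refine ⟨[], hl, le_rfl, ?_⟩
    rw [← hc, Function.update_eq_self]
    exact hH
  | succ k ih =>
    obtain ⟨l', h1, h2, h3⟩ := ih (by omega)
    set φ := Hf (VS star eq ix ch v (Function.update c e (k + 1))) (b v) with hφ
    have e1 : VS star eq ix ch v (Function.update c e (k + 1)) =
        symmDiff (VS star eq ix ch v (Function.update c e k)) (WS eq ix ch e k) := by
      rw [← VS_update star eq ix ch v (Function.update c e k) he (Function.update_self _ _ _),
        Function.update_idem]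
    refine ⟨φ :: l', ?_, by simpa using h2, by simp⟩
    rw [List.cons_append]
    refine h1.cons (Or.inr (Or.inr ⟨[Hf (VS star eq ix ch v (Function.update c e k)) (b v),
      Hf (WS eq ix ch e k) false], by simp, ?_, ?_⟩)) ?_
    · intro ψ hψ
      rcases List.mem_cons.1 hψ with rfl | h4
      · exact h3
      · rw [List.mem_singleton] at h4
        rw [h4]
        exact List.mem_append_right _ (hX e ⟨k, by omega⟩)
    · intro x hx
      have a1 := (Hf_eval _ _ x).1 (hx _ List.mem_cons_self)
      have a2 := (Hf_eval _ _ x).1 (hx (Hf (WS eq ix ch e k) false) (by simp))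
      rw [hφ, Hf_eval, e1, par_symmDiff, a1, a2]
      simp
    · refine (Hf_occ _ _).trans (le_trans ?_ hM)
      refine Nat.mul_le_mul_left _ (Nat.pow_le_pow_left ?_ 2)
      refine (VS_card star eq ix ch v _).trans ?_
      rw [hB]
      exact Nat.mul_le_mul_right _ (hstar v)

theorem stepC {M m : ℕ} (hB : Fintype.card B = m) (hstar : ∀ v, (star v).card ≤ 4)
    (hM : 4 * (4 * (m + 1)) ^ 2 ≤ M) (v : Fin n) {l : List (Fml (Fin N ⊕ Fin ext))}
    (hl : Gd star b eq ix ch M l)
    (hX : ∀ e (k : Fin q), Hf (WS eq ix ch e k) false ∈ l) (A : Finset E) (hA : A ⊆ star v) :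
    ∃ l', Gd star b eq ix ch M (l' ++ l) ∧ l'.length ≤ A.card * q + 1 ∧
      Hf (VS star eq ix ch v (fun e => if e ∈ A then q else 0)) (b v) ∈ l' ++ l := by
  induction A using Finset.induction_on with
  | empty =>
    refine ⟨[Hf (VS star eq ix ch v (fun _ => 0)) (b v)], ?_, by simp, by simp⟩
    rw [List.singleton_append]
    refine hl.cons (Or.inl ⟨v, fun x hx => ?_⟩) ?_
    · rw [Hf_eval]
      exact VS_zero star eq ix ch v x (b v) hx
    · refine (Hf_occ _ _).trans (le_trans ?_ hM)
      refine Nat.mul_le_mul_left _ (Nat.pow_le_pow_left ?_ 2)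
      refine (VS_card star eq ix ch v _).trans ?_
      rw [hB]
      exact Nat.mul_le_mul_right _ (hstar v)
  | insert e A heA ih =>
    obtain ⟨l', h1, h2, h3⟩ := ih fun a ha => hA (Finset.mem_insert_of_mem ha)
    obtain ⟨l'', h4, h5, h6⟩ := stepB hB hstar hM (hA (Finset.mem_insert_self e A))
      (c := fun e => if e ∈ A then q else 0) (by simp [heA]) h1
      (fun e k => List.mem_append_right _ (hX e k)) h3 q le_rfl
    refine ⟨l'' ++ l', ?_, ?_, ?_⟩
    · rw [List.append_assoc]
      exact h4
    · rw [List.length_append, Finset.card_insert_of_notMem heA]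
      have : (A.card + 1) * q = A.card * q + q := by ring
      omega
    · rw [List.append_assoc]
      have e1 : Function.update (fun e => if e ∈ A then q else 0) e q =
          fun e' => if e' ∈ insert e A then q else 0 := by
        funext e'
        by_cases h : e' = e
        · subst h
          simp
        · rw [Function.update_of_ne h]
          simp [h]
      rw [e1] at h6
      exact h6

variable (star b eq ix ch)

/-- conjunctions of the final statements -/
noncomputable def Gf : ℕ → Fml (Fin N ⊕ Fin ext)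
  | 0 => .tru
  | i + 1 => .and (Gf i) (if h : i < n then
      Hf (VS star eq ix ch ⟨i, h⟩ (fun e => if e ∈ star ⟨i, h⟩ then q else 0)) (b ⟨i, h⟩)
      else .tru)

variable {star b eq ix ch}

theorem Gf_eval (i : ℕ) (x : Fin N ⊕ Fin ext → Bool) (h : (Gf star b eq ix ch i).eval x = true)
    (v : Fin n) (hv : v.val < i) :
    par (VS star eq ix ch v (fun e => if e ∈ star v then q else 0)) x = b v := by
  induction i with
  | zero => omega
  | succ i ih =>
    simp only [Gf, Fml.eval, Bool.and_eq_true] at h
    rcases Nat.lt_succ_iff_lt_or_eq.1 hv with h1 | h1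
    · exact ih h.1 h1
    · have h2 := h.2
      rw [dif_pos (by omega : i < n)] at h2
      have h3 := (Hf_eval _ _ x).1 h2
      have e : v = ⟨i, by omega⟩ := Fin.ext h1
      rw [e]
      exact h3

theorem Gf_occ (hq : 1 ≤ q) (hch : ∀ i, ch i < q) (hstar : ∀ v, (star v).card ≤ 4) (i : ℕ) :
    (Gf star b eq ix ch i).occ ≤ 64 * i := by
  induction i with
  | zero => simp [Gf, Fml.occ, Fml.count]
  | succ i ih =>
    have h1 : (if h : i < n then
      Hf (VS star eq ix ch ⟨i, h⟩ (fun e => if e ∈ star ⟨i, h⟩ then q else 0)) (b ⟨i, h⟩)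
      else .tru : Fml (Fin N ⊕ Fin ext)).occ ≤ 64 := by
      split_ifs with h
      · refine (Hf_occ _ _).trans ?_
        have h2 : (VS star eq ix ch ⟨i, h⟩
            (fun e => if e ∈ star ⟨i, h⟩ then q else 0)).card ≤ 4 := by
          rw [VS_final star eq ix ch hq hch]
          exact Finset.card_image_le.trans (hstar _)
        calc _ ≤ 4 * 4 ^ 2 := Nat.mul_le_mul_left _ (Nat.pow_le_pow_left h2 2)
          _ = 64 := by norm_num
      · simp [Fml.occ, Fml.count]
    have h2 : (Gf star b eq ix ch (i + 1)).occ = (Gf star b eq ix ch i).occ +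
      (if h : i < n then
      Hf (VS star eq ix ch ⟨i, h⟩ (fun e => if e ∈ star ⟨i, h⟩ then q else 0)) (b ⟨i, h⟩)
      else .tru : Fml (Fin N ⊕ Fin ext)).occ := rfl
    rw [h2]
    omega

/-- the extension axioms as parity statements -/
theorem startX {M r : ℕ} (hr : ∀ k, (univ.filter (fun i => ch i = k)).card ≤ r)
    (hM : 4 * (r + 2) ^ 2 ≤ M) :
    ∃ l, Gd star b eq ix ch M l ∧ l.length = ext ∧
      ∀ e (k : Fin q), Hf (WS eq ix ch e k) false ∈ l := by
  refine ⟨(List.finRange ext).map fun i =>
    Hf (WS eq ix ch (ix.symm i).1 (ix.symm i).2) false, ⟨?_, ?_⟩, by simp, ?_⟩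
  · have h1 := Drv.append_axioms (S := SU star eq) (b := b) (dfn := dfnU eq ix ch)
      (l := []) trivial (l' := (List.finRange ext).map fun i =>
        Hf (WS eq ix ch (ix.symm i).1 (ix.symm i).2) false) (by
      intro φ hφ
      obtain ⟨i, _, rfl⟩ := List.mem_map.1 hφ
      refine ⟨i, fun x hx => ?_⟩
      rw [Hf_eval, WS_eq, par_symmDiff]
      have h2 : par {(Sum.inr (ix ((ix.symm i).1, (ix.symm i).2)) : Fin N ⊕ Fin ext)} x =
          x (Sum.inr i) := by
        have e1 : ix ((ix.symm i).1, (ix.symm i).2) = i := by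
          rw [Prod.mk.eta, Equiv.apply_symm_apply]
        rw [e1]
        unfold par
        rw [Finset.filter_singleton]
        cases h3 : x (Sum.inr i) <;> simp
      rw [h2, hx]
      have h3 : (dfnU (N := N) eq ix ch i).eval x =
          par (DS eq ix ch (ix.symm i).1 (ix.symm i).2.val) x := by
        have h4 := Hf_eval (DS (N := N) eq ix ch (ix.symm i).1 (ix.symm i).2.val) true x
        unfold dfnU
        rcases hp : par (DS (N := N) eq ix ch (ix.symm i).1 (ix.symm i).2.val) x with _ | _
        · rw [hp] at h4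
          rw [← Bool.not_eq_true, h4]
          simp
        · exact h4.2 hp
      rw [h3]
      simp)
    simpa using h1
  · intro φ hφ
    obtain ⟨i, _, rfl⟩ := List.mem_map.1 hφ
    refine (Hf_occ _ _).trans (le_trans ?_ hM)
    refine Nat.mul_le_mul_left _ (Nat.pow_le_pow_left ?_ 2)
    exact WS_card eq ix ch _ _ (hr _)
  · intro e k
    rw [List.mem_map]
    refine ⟨ix (e, k), List.mem_finRange _, ?_⟩
    rw [Equiv.symm_apply_apply]

theorem buildG {M m r : ℕ} (hB : Fintype.card B = m) (hstar : ∀ v, (star v).card ≤ 4)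
    (hq : 1 ≤ q) (hch : ∀ i, ch i < q)
    (hr : ∀ k, (univ.filter (fun i => ch i = k)).card ≤ r)
    (hM1 : 4 * (r + 2) ^ 2 ≤ M)
    (hM : 4 * (4 * (m + 1)) ^ 2 ≤ M) (hM2 : 64 * n ≤ M) (i : ℕ) (hi : i ≤ n) :
    ∃ l, Gd star b eq ix ch M l ∧ l.length ≤ ext + 1 + i * (4 * q + 2) ∧
      (∀ e (k : Fin q), Hf (WS eq ix ch e k) false ∈ l) ∧ Gf star b eq ix ch i ∈ l := by
  induction i with
  | zero =>
    obtain ⟨l, h1, h2, h3⟩ := startX (star := star) (b := b) (eq := eq) (ix := ix) (ch := ch)
      hr hM1
    refine ⟨Gf star b eq ix ch 0 :: l, ?_, ?_, ?_, by simp⟩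
    · refine h1.cons (Or.inr (Or.inr ⟨[], by simp, by simp, fun x _ => rfl⟩)) ?_
      exact (Gf_occ hq hch hstar 0).trans (by omega)
    · rw [List.length_cons]
      omega
    · intro e k
      exact List.mem_cons_of_mem _ (h3 e k)
  | succ i ih =>
    obtain ⟨l, h1, h2, h3, h4⟩ := ih (by omega)
    obtain ⟨l', h5, h6, h7⟩ := stepC hB hstar hM ⟨i, by omega⟩ h1 h3 (star ⟨i, by omega⟩)
      (Finset.Subset.refl _)
    refine ⟨Gf star b eq ix ch (i + 1) :: (l' ++ l), ?_, ?_, ?_, by simp⟩
    · refine h5.cons (Or.inr (Or.inr ⟨[Gf star b eq ix ch i,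
        Hf (VS star eq ix ch ⟨i, by omega⟩ (fun e => if e ∈ star ⟨i, by omega⟩ then q else 0))
          (b ⟨i, by omega⟩)], by simp, ?_, ?_⟩)) ?_
      · intro ψ hψ
        rcases List.mem_cons.1 hψ with rfl | h8
        · exact List.mem_append_right _ h4
        · rw [List.mem_singleton] at h8
          rw [h8]
          exact h7
      · intro x hx
        have a1 := hx _ List.mem_cons_self
        have a2 := hx (Hf (VS star eq ix ch ⟨i, by omega⟩
          (fun e => if e ∈ star ⟨i, by omega⟩ then q else 0)) (b ⟨i, by omega⟩)) (by simp)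
        simp only [Gf, Fml.eval, Bool.and_eq_true]
        refine ⟨a1, ?_⟩
        rw [dif_pos (by omega : i < n)]
        exact a2
      · exact (Gf_occ hq hch hstar (i + 1)).trans (by omega)
    · rw [List.length_cons, List.length_append]
      have h8 : (star ⟨i, by omega⟩).card * q ≤ 4 * q := Nat.mul_le_mul_right _ (hstar _)
      have h9 : (i + 1) * (4 * q + 2) = i * (4 * q + 2) + (4 * q + 2) := by ring
      omega
    · intro e k
      exact List.mem_cons_of_mem _ (List.mem_append_right _ (h3 e k))

end build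

end Upper

open Upper

/-- T11 (uses T9): refutation with `q` extension variables for every block. -/
theorem upper {E B : Type} [Fintype E] [DecidableEq E] [Fintype B] [DecidableEq B]
    {n m N : ℕ} (hn : 1 ≤ n) (hm : 1 ≤ m) (hE : Fintype.card E = 2 * n) (hB : Fintype.card B = m)
    (star : Fin n → Finset E) (hstar : ∀ v, (star v).card ≤ 4) (b : Fin n → Bool)
    (hunsat : ∀ y : E → Bool, ¬ ∀ v, XorHolds (star v) (b v) y)
    (eq : E × B ≃ Fin N) (k : ℕ) (hk : 2 ≤ k) (q : ℕ) (hq : 1 ≤ q) (hqm : q ≤ m) :
    ∃ R : ExtRef (fun v => ((star v) ×ˢ (univ : Finset B)).map eq.toEmbedding) b k,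
      R.ext = 2 * n * q ∧ (∑ i, (R.dfn i).occ) * q ≤ 1000 * (n * m ^ 2) ∧
      (∀ i, (R.line i).occ ≤ 1000 * (m ^ 2 + n)) ∧ R.len ≤ 1000 * (n * q) ∧
      (∀ i, (R.dfn i).occ ≤ 1000 * m ^ 2) := by
  classical
  set iE : E ≃ Fin (2 * n) := Fintype.equivFinOfCardEq hE with hiE
  set iB : B ≃ Fin m := Fintype.equivFinOfCardEq hB with hiB
  set ix : E × Fin q ≃ Fin (2 * n * q) :=
    (Equiv.prodCongr iE (Equiv.refl (Fin q))).trans finProdFinEquiv with hix
  set r : ℕ := (m + q - 1) / q with hr
  have hrq1 : m ≤ r * q := by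
    have h1 : q * r + (m + q - 1) % q = m + q - 1 := Nat.div_add_mod (m + q - 1) q
    have h2 : (m + q - 1) % q < q := Nat.mod_lt (m + q - 1) hq
    have h3 : r * q = q * r := mul_comm _ _
    rw [h3]
    have h4 : ∀ u v w : ℕ, u + v = m + q - 1 → v < q → m ≤ u := by
      intro u v _ h5 h6
      omega
    exact h4 _ _ 0 h1 h2
  have hrq2 : r * q ≤ m + q - 1 := Nat.div_mul_le_self _ _
  have hr1 : 1 ≤ r := by
    by_contra h
    have h0 : r = 0 := Nat.eq_zero_of_not_pos h
    rw [h0, zero_mul] at hrq1
    exact absurd (hm.trans hrq1) (by norm_num)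
  have hrm : r ≤ m := by
    rw [hr]
    apply Nat.le_of_lt_succ
    rw [Nat.div_lt_iff_lt_mul hq]
    have : m * 1 ≤ m * q := Nat.mul_le_mul_left _ hq
    rw [Nat.succ_mul]
    omega
  set ch : B → ℕ := fun i => (iB i).val / r with hch
  have hchq : ∀ i, ch i < q := by
    intro i
    simp only [hch]
    rw [Nat.div_lt_iff_lt_mul hr1, mul_comm]
    exact (iB i).2.trans_le hrq1
  have hchr : ∀ k, (univ.filter (fun i => ch i = k)).card ≤ r := by
    intro k
    have h1 : (univ.filter (fun i => ch i = k)).card ≤ (Finset.Ico (k * r) (k * r + r)).card := by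
      refine Finset.card_le_card_of_injOn (fun i => (iB i).val) ?_ ?_
      · intro i hi
        simp only [Finset.coe_filter, Finset.mem_univ, true_and, Set.mem_ofPred_eq, hch] at hi
        rw [Finset.coe_Ico, Set.mem_Ico]
        have h2 : r * ((iB i).val / r) + (iB i).val % r = (iB i).val :=
          Nat.div_add_mod (iB i).val r
        have h3 : (iB i).val % r < r := Nat.mod_lt (iB i).val hr1
        have h4 : r * k = k * r := mul_comm _ _
        rw [hi] at h2
        show k * r ≤ (iB i).val ∧ (iB i).val < k * r + r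
        constructor <;> omega
      · intro i _ j _ h
        exact iB.injective (Fin.ext h)
    rw [Nat.card_Ico] at h1
    omega
  set M : ℕ := 1000 * (m ^ 2 + n) with hM
  have hm2 : m ≤ m ^ 2 := by nlinarith
  have hr2 : r ^ 2 ≤ m ^ 2 := Nat.pow_le_pow_left hrm 2
  have hM1 : 4 * (r + 2) ^ 2 ≤ M := by
    have : (r + 2) ^ 2 ≤ (m + 2) ^ 2 := Nat.pow_le_pow_left (by omega) 2
    nlinarith
  have hM3 : 4 * (4 * (m + 1)) ^ 2 ≤ M := by nlinarith
  have hM2 : 64 * n ≤ M := by omega
  obtain ⟨l, h1, h2, h3, h4⟩ := buildG (star := star) (b := b) (eq := eq) (ix := ix) (ch := ch)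
    hB hstar hq hchq hchr hM1 hM3 hM2 n le_rfl
  have hlt : ∀ i j, (dfnU (N := N) eq ix ch i).Occurs (Sum.inr j) → j < i := by
    intro i j h
    have h5 := DS_lt eq ix ch (Hf_occurs _ _ _ h)
    have e1 : i = ix (ix.symm i) := (Equiv.apply_symm_apply ix i).symm
    have e2 : j = ix (ix.symm j) := (Equiv.apply_symm_apply ix j).symm
    have e3 : ∀ p : E × Fin q, (ix p).val = p.2.val + q * (iE p.1).val := fun p => rfl
    rw [Fin.lt_def, e1, e2, e3, e3, h5.1]
    omega
  obtain ⟨R, hR1, hR2, hR3, hR4, hR5⟩ := toRef h1.1 hlt ⟨_, h4, fun x => by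
    by_contra hcon
    rw [Bool.not_eq_false] at hcon
    exact hunsat _ fun v => final_xor star eq ix ch hq hchq v x (b v)
      (Gf_eval n x hcon v v.2)⟩ hk
  have h5 : ∀ i, (dfnU (N := N) eq ix ch i).occ ≤ 4 * (r + 1) ^ 2 := by
    intro i
    refine (Hf_occ _ _).trans (Nat.mul_le_mul_left _ (Nat.pow_le_pow_left ?_ 2))
    exact DS_card eq ix ch _ _ (hchr _)
  refine ⟨R, hR1, ?_, hR3 M h1.2, ?_, hR5 _ fun i => (h5 i).trans ?_⟩
  rotate_right
  · have h6 : (r + 1) ^ 2 ≤ (2 * m) ^ 2 := Nat.pow_le_pow_left (by omega) 2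
    nlinarith
  · rw [hR2]
    calc (∑ i, (dfnU (N := N) eq ix ch i).occ) * q
        ≤ (∑ i : Fin (2 * n * q), 4 * (r + 1) ^ 2) * q :=
          Nat.mul_le_mul_right _ (Finset.sum_le_sum fun i _ => h5 i)
      _ = 2 * n * q * (4 * (r + 1) ^ 2) * q := by
          rw [Finset.sum_const, Finset.card_univ, Fintype.card_fin, smul_eq_mul]
      _ ≤ 2 * n * q * (4 * (2 * r) ^ 2) * q := by
          refine Nat.mul_le_mul_right _ (Nat.mul_le_mul_left _ (Nat.mul_le_mul_left _
            (Nat.pow_le_pow_left (by omega) 2)))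
      _ = 32 * n * (r * q) ^ 2 := by ring
      _ ≤ 32 * n * (2 * m) ^ 2 :=
          Nat.mul_le_mul_left _ (Nat.pow_le_pow_left (by omega) 2)
      _ ≤ 1000 * (n * m ^ 2) := by
          have : 32 * n * (2 * m) ^ 2 = 128 * (n * m ^ 2) := by ring
          rw [this]
          exact Nat.mul_le_mul_right _ (by norm_num)
  · rw [hR4]
    refine h2.trans ?_
    have h5 : 1 ≤ n * q := Nat.mul_pos hn hq
    have h6 : n ≤ n * q := Nat.le_mul_of_pos_right n hq
    have h7 : n * (4 * q + 2) = 4 * (n * q) + 2 * n := by ring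
    have h8 : 2 * n * q = 2 * (n * q) := by ring
    rw [h7, h8]
    omega

end Pool.Agent.H564R2.EF
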