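import Pool.Agent.H564R2.EF.Par

/-!
# Refutations without extension variables (task EF10)
-/

namespace Pool.Agent.H564R2.EF

open Finset

/-- parity of the number of blocks with odd parity -/
lemma uz_card_mod {E B : Type} [DecidableEq E] [Fintype B] [DecidableEq B]
    (T : Finset E) (z : E × B → Bool) :
    (((T ×ˢ (univ : Finset B))).filter (fun p => z p = true)).card % 2 =
      (T.filter (fun e => decide ((univ.filter (fun c => z (e, c) = true)).card % 2 = 1) = true)).card
        % 2 := by
  induction T using Finset.induction_on with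
  | empty => simp
  | @insert a T ha ih =>
    have h1 : ((insert a T) ×ˢ (univ : Finset B)).filter (fun p => z p = true) =
        ((univ.filter (fun c => z (a, c) = true)).map ⟨fun c => (a, c), fun _ _ h => by simpa using h⟩) ∪
          ((T ×ˢ (univ : Finset B)).filter (fun p => z p = true)) := by
      ext ⟨e, c⟩
      simp only [mem_filter, mem_product, mem_insert, mem_univ, and_true, mem_union, mem_map,
        true_and, Function.Embedding.coeFn_mk, Prod.mk.injEq]
      constructor
      · rintro ⟨h | h, h'⟩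
        · subst h
          exact Or.inl ⟨c, h', rfl, rfl⟩
        · exact Or.inr ⟨h, h'⟩
      · rintro (⟨c', h', rfl, rfl⟩ | ⟨h, h'⟩)
        · exact ⟨Or.inl rfl, h'⟩
        · exact ⟨Or.inr h, h'⟩
    have hd : Disjoint ((univ.filter (fun c => z (a, c) = true)).map
        ⟨fun c => (a, c), fun _ _ h => by simpa using h⟩)
          ((T ×ˢ (univ : Finset B)).filter (fun p => z p = true)) := by
      rw [Finset.disjoint_left]
      rintro ⟨e, c⟩ h1 h2
      simp only [mem_map, mem_filter, mem_univ, true_and, Function.Embedding.coeFn_mk,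
        Prod.mk.injEq, mem_product, and_true] at h1 h2
      obtain ⟨_, _, h3, _⟩ := h1
      exact ha (h3 ▸ h2.1)
    rw [h1, card_union_of_disjoint hd, card_map, Nat.add_mod, ih]
    rw [filter_insert]
    by_cases hp : (univ.filter (fun c => z (a, c) = true)).card % 2 = 1
    · rw [if_pos (by simpa using hp), card_insert_of_notMem (by
        simp only [mem_filter, not_and]
        intro h
        exact absurd h ha), hp]
      omega
    · rw [if_neg (by simpa using hp)]
      have hp' : (univ.filter (fun c => z (a, c) = true)).card % 2 = 0 := by omega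
      rw [hp']
      omega

/-- A solution of the big system gives a solution of the small one. -/
lemma uz_small {E B : Type} [Fintype E] [DecidableEq E] [Fintype B] [DecidableEq B]
    {N : ℕ} (T : Finset E) (b : Bool) (eq : E × B ≃ Fin N) (x : Fin N → Bool)
    (h : XorHolds ((T ×ˢ (univ : Finset B)).map eq.toEmbedding) b x) :
    XorHolds T b (fun e => decide ((univ.filter (fun c => x (eq (e, c)) = true)).card % 2 = 1)) := by
  unfold XorHolds at *
  have h1 : (((T ×ˢ (univ : Finset B)).map eq.toEmbedding).filter (fun i => x i = true)).card =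
      ((T ×ˢ (univ : Finset B)).filter (fun p => x (eq p) = true)).card := by
    rw [filter_map, card_map]
    rfl
  rw [h1, uz_card_mod T (fun p => x (eq p))] at h
  exact h

/-- formula for one constraint -/
lemma uz_constraint {N M : ℕ} (S : Finset (Fin N)) (b : Bool) :
    ∃ φ : Fml (Fin N ⊕ Fin M), φ.occ ≤ 4 * S.card ^ 2 ∧
      (∀ a, φ.Occurs a → ∃ i ∈ S, a = Sum.inl i) ∧
      ∀ x, φ.eval x = true ↔ XorHolds S b (fun a => x (Sum.inl a)) := by
  obtain ⟨φ, h1, h2, h3⟩ := exists_par (S.map ⟨(Sum.inl : Fin N → Fin N ⊕ Fin M), Sum.inl_injective⟩)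
  rw [card_map] at h1
  have h4 : ∀ x : Fin N ⊕ Fin M → Bool,
      ((S.map ⟨(Sum.inl : Fin N → Fin N ⊕ Fin M), Sum.inl_injective⟩).filter
        (fun i => x i = true)).card = (S.filter (fun i => x (Sum.inl i) = true)).card := by
    intro x
    rw [filter_map, card_map]
    rfl
  have h5 : ∀ a, φ.Occurs a → ∃ i ∈ S, a = Sum.inl i := by
    intro a ha
    obtain ⟨i, hi, rfl⟩ := mem_map.1 (h2 a ha)
    exact ⟨i, hi, rfl⟩
  cases b with
  | true =>
    refine ⟨φ, h1, h5, ?_⟩
    intro x
    rw [h3 x, h4 x]
    simp [XorHolds]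
  | false =>
    refine ⟨Fml.neg φ, h1, ?_, ?_⟩
    · intro a ha
      exact h5 a ha
    · intro x
      show (!(φ.eval x)) = true ↔ _
      rw [h3 x, h4 x]
      simp [XorHolds]

/-- conjunctions of the first constraints -/
def uzG {α : Type} (C : ℕ → Fml α) : ℕ → Fml α
  | 0 => C 0
  | j + 1 => Fml.and (uzG C j) (C (j + 1))

lemma uzG_occ {α : Type} (C : ℕ → Fml α) (K : ℕ) (hC : ∀ j, (C j).occ ≤ K) (j : ℕ) :
    (uzG C j).occ ≤ (j + 1) * K := by
  induction j with
  | zero => simpa [uzG] using hC 0
  | succ j ih =>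
    have h1 : (uzG C (j + 1)).occ = (uzG C j).occ + (C (j + 1)).occ := rfl
    rw [h1]
    have := hC (j + 1)
    calc (uzG C j).occ + (C (j + 1)).occ ≤ (j + 1) * K + K := by omega
      _ = (j + 1 + 1) * K := by ring

lemma uzG_eval {α : Type} (C : ℕ → Fml α) (x : α → Bool) (j : ℕ)
    (h : (uzG C j).eval x = true) : ∀ i ≤ j, (C i).eval x = true := by
  induction j with
  | zero =>
    intro i hi
    have : i = 0 := by omega
    subst this
    exact h
  | succ j ih =>
    have h1 : (uzG C (j + 1)).eval x = ((uzG C j).eval x && (C (j + 1)).eval x) := rfl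
    rw [h1, Bool.and_eq_true] at h
    intro i hi
    rcases Nat.lt_or_ge i (j + 1) with h2 | h2
    · exact ih h.1 i (by omega)
    · have : i = j + 1 := by omega
      subst this
      exact h.2

/-- T10 (uses T9): refutation without extension variables. -/
theorem upper_zero {E B : Type} [Fintype E] [DecidableEq E] [Fintype B] [DecidableEq B]
    {n m N : ℕ} (hn : 1 ≤ n) (hm : 1 ≤ m) (hB : Fintype.card B = m)
    (star : Fin n → Finset E) (hstar : ∀ v, (star v).card ≤ 4) (b : Fin n → Bool)
    (hunsat : ∀ y : E → Bool, ¬ ∀ v, XorHolds (star v) (b v) y)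
    (eq : E × B ≃ Fin N) (k : ℕ) (hk : 2 ≤ k) :
    ∃ R : ExtRef (fun v => ((star v) ×ˢ (univ : Finset B)).map eq.toEmbedding) b k,
      R.ext = 0 ∧ (∀ i, (R.line i).occ ≤ 64 * (n * m ^ 2)) ∧ R.len ≤ 2 * n := by
  have hm' := hm
  choose C hC1 hC2 hC3 using fun v => uz_constraint (M := 0)
    (((star v) ×ˢ (univ : Finset B)).map eq.toEmbedding) (b v)
  have hC4 : ∀ v, (C v).occ ≤ 64 * m ^ 2 := by
    intro v
    refine (hC1 v).trans ?_
    rw [card_map, card_product, card_univ, hB]
    have h1 : (star v).card * m ≤ 4 * m := Nat.mul_le_mul_right m (hstar v)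
    calc 4 * ((star v).card * m) ^ 2 ≤ 4 * (4 * m) ^ 2 :=
          Nat.mul_le_mul_left 4 (Nat.pow_le_pow_left h1 2)
      _ = 64 * m ^ 2 := by ring
  let D : ℕ → Fml (Fin N ⊕ Fin 0) := fun j => if h : j < n then C ⟨j, h⟩ else Fml.tru
  have hD1 : ∀ j (h : j < n), D j = C ⟨j, h⟩ := fun j h => dif_pos h
  have hD2 : ∀ j, (D j).occ ≤ 64 * m ^ 2 := by
    intro j
    by_cases h : j < n
    · rw [hD1 j h]; exact hC4 _
    · have : D j = Fml.tru := dif_neg h
      rw [this]
      exact Nat.zero_le _
  let L : Fin (2 * n) → Fml (Fin N ⊕ Fin 0) := fun i =>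
    if i.1 < n then D i.1 else uzG D (i.1 - n)
  have hL1 : ∀ i : Fin (2 * n), i.1 < n → L i = D i.1 := fun i h => if_pos h
  have hL2 : ∀ i : Fin (2 * n), ¬ i.1 < n → L i = uzG D (i.1 - n) := fun i h => if_neg h
  refine ⟨⟨0, fun j => j.elim0, fun i => i.elim0, 2 * n, L, ?_, ?_⟩, rfl, ?_, le_rfl⟩
  · refine ⟨⟨2 * n - 1, by omega⟩, ?_⟩
    intro x
    rw [hL2 _ (by show ¬ (2 * n - 1 < n); omega)]
    by_contra hcon
    have h1 : (uzG D (2 * n - 1 - n)).eval x = true := by
      simpa using hcon
    refine hunsat (fun e => decide ((univ.filter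
      (fun c => x (Sum.inl (eq (e, c))) = true)).card % 2 = 1)) ?_
    intro v
    refine uz_small (star v) (b v) eq (fun a => x (Sum.inl a)) ?_
    refine (hC3 v x).1 ?_
    have h2 := uzG_eval D x _ h1 v.1 (by have := v.2; omega)
    rw [hD1 v.1 v.2] at h2
    exact h2
  · intro i
    by_cases hi : i.1 < n
    · left
      refine ⟨⟨i.1, hi⟩, ?_⟩
      intro x hx
      rw [hL1 i hi, hD1 i.1 hi]
      exact (hC3 _ x).2 hx
    · right; right
      obtain ⟨j, hj⟩ : ∃ j, i.1 = n + j := ⟨i.1 - n, by omega⟩
      have hi2 := i.2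
      rw [hL2 i hi]
      have hj' : i.1 - n = j := by omega
      rw [hj']
      cases j with
      | zero =>
        refine ⟨{⟨0, by omega⟩}, by simp; omega, ?_, ?_⟩
        · intro l hl
          rw [mem_singleton] at hl
          subst hl
          rw [Fin.lt_def]
          show 0 < i.1
          omega
        · intro x hx
          have h1 := hx _ (mem_singleton_self _)
          rw [hL1 _ (by show 0 < n; omega)] at h1
          exact h1
      | succ j =>
        refine ⟨{⟨n + j, by omega⟩, ⟨j + 1, by omega⟩}, (card_le_two).trans hk, ?_, ?_⟩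
        · intro l hl
          rw [mem_insert, mem_singleton] at hl
          rw [Fin.lt_def]
          rcases hl with rfl | rfl
          · show n + j < i.1
            omega
          · show j + 1 < i.1
            omega
        · intro x hx
          have h1 := hx _ (mem_insert_self _ _)
          have h2 := hx ⟨j + 1, by omega⟩ (mem_insert_of_mem (mem_singleton_self _))
          rw [hL2 _ (by show ¬ (n + j < n); omega)] at h1
          rw [hL1 _ (by show j + 1 < n; omega)] at h2
          have h3 : (uzG D (j + 1)).eval x = ((uzG D j).eval x && (D (j + 1)).eval x) := rfl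
          rw [h3, Bool.and_eq_true]
          refine ⟨?_, h2⟩
          have h4 : n + j - n = j := by omega
          rw [← h4]
          exact h1
  · intro i
    show (L i).occ ≤ _
    by_cases hi : i.1 < n
    · rw [hL1 i hi]
      refine (hD2 _).trans ?_
      nlinarith [Nat.mul_le_mul_right (64 * m ^ 2) hn]
    · rw [hL2 i hi]
      refine (uzG_occ D _ hD2 _).trans ?_
      have hi2 : i.1 < 2 * n := i.2
      calc (i.1 - n + 1) * (64 * m ^ 2) ≤ n * (64 * m ^ 2) :=
            Nat.mul_le_mul_right _ (by omega)
        _ = 64 * (n * m ^ 2) := by ring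

end Pool.Agent.H564R2.EF
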